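import Pool.Agent.WB.AS2

set_option autoImplicit false

namespace Pool.Agent.WB

theorem PB_two (n : ℕ) : PB {2} n := by
  classical
  refine ⟨{B | B.card = 2}, ?_, ?_⟩
  · intro B hB
    exact ⟨hB, fun x _ y _ hxy => hxy⟩
  · intro x y hxy
    have hxy' : x ≠ y := hxy
    refine ⟨{x, y}, ⟨Finset.card_pair hxy', by simp, by simp⟩, ?_⟩
    rintro B ⟨hB, hx, hy⟩
    symm
    apply Finset.eq_of_subset_of_card_le
    · intro z hz
      simp only [Finset.mem_insert, Finset.mem_singleton] at hz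
      rcases hz with rfl | rfl
      · exact hx
      · exact hy
    · rw [Finset.card_pair hxy']
      exact (show B.card = 2 from hB).le

/-- Admissibility. -/
theorem admissible {q n : ℕ} (hq : IsPrimePow q) (hn : 1 ≤ n)
    (hD : ∀ i < 2, (q - i).choose (2 - i) ∣ (n - i).choose (2 - i)) :
    ∃ r, n = (q - 1) * r + 1 ∧ r % q ≤ 1 := by
  have hq2 : 2 ≤ q := hq.two_le
  have h1 := hD 1 (by norm_num)
  have h0 := hD 0 (by norm_num)
  simp only [Nat.sub_zero, show (2 - 1 : ℕ) = 1 from rfl, Nat.choose_one_right] at h0 h1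
  obtain ⟨r, hr⟩ := h1
  have hnr : n = (q - 1) * r + 1 := by omega
  refine ⟨r, hnr, ?_⟩
  rcases Nat.eq_zero_or_pos r with h | hrpos
  · rw [h]; simp
  have hA : q * (q - 1) ∣ n * (n - 1) := by
    have e1 : q.choose 2 * 2 = q * (q - 1) := by
      rw [Nat.choose_two_right]
      exact Nat.div_mul_cancel (Nat.even_mul_pred_self q).two_dvd
    have e2 : n.choose 2 * 2 = n * (n - 1) := by
      rw [Nat.choose_two_right]
      exact Nat.div_mul_cancel (Nat.even_mul_pred_self n).two_dvd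
    rw [← e1, ← e2]
    exact Nat.mul_dvd_mul_right h0 2
  have hB : q ∣ n * r := by
    rw [hr] at hA
    have e : n * ((q - 1) * r) = (n * r) * (q - 1) := by ring
    rw [e] at hA
    exact Nat.dvd_of_mul_dvd_mul_right (by omega) hA
  have hC : q ∣ r * (r - 1) := by
    obtain ⟨j, rfl⟩ : ∃ j, q = j + 1 := ⟨q - 1, by omega⟩
    obtain ⟨i, rfl⟩ : ∃ i, r = i + 1 := ⟨r - 1, by omega⟩
    simp only [Nat.add_sub_cancel] at hnr ⊢
    have e : (j + 1) * (i + 1) ^ 2 = n * (i + 1) + (i + 1) * i := by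
      rw [hnr]; ring
    have hd : (j + 1) ∣ n * (i + 1) + (i + 1) * i := by
      rw [← e]; exact Dvd.intro _ rfl
    exact (Nat.dvd_add_right hB).1 hd
  have hcop : Nat.Coprime r (r - 1) := by
    obtain ⟨i, rfl⟩ : ∃ i, r = i + 1 := ⟨r - 1, by omega⟩
    simp
  rcases (hcop.isPrimePow_dvd_mul hq).1 hC with h | h
  · rw [Nat.mod_eq_zero_of_dvd h]; omega
  · obtain ⟨c, hc⟩ := h
    have : r = 1 + q * c := by omega
    rw [this, Nat.add_mul_mod_self_left, Nat.mod_eq_of_lt (by omega)]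

theorem steiner_nat {q : ℕ} (hq : IsPrimePow q) (n : ℕ)
    (hn : 2 ^ (36400001 * (q * (Nat.log 2 q + 1) ^ 2)) ≤ n)
    (hD : ∀ i < 2, (q - i).choose (2 - i) ∣ (n - i).choose (2 - i)) : PB {q} n := by
  have hq2 : 2 ≤ q := hq.two_le
  have hn1 : 1 ≤ n := le_trans Nat.one_le_two_pow hn
  obtain ⟨r, hr, hrq⟩ := admissible hq hn1 hD
  rcases Nat.lt_or_ge q 3 with h | h3
  · have : q = 2 := by omega
    rw [this]; exact PB_two n
  have h1 : 2 ^ Nat.log 2 q ≤ q := Nat.pow_log_le_self 2 (by omega)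
  have h2 : q < 2 ^ (Nat.log 2 q + 1) := Nat.lt_pow_succ_log_self (by norm_num) q
  have hl : 1 ≤ Nat.log 2 q := by
    have := Nat.log_pos (b := 2) (by norm_num) hq2
    omega
  rw [hr]
  refine G6 (by omega) ?_
  refine R_bound hq h3 (l := Nat.log 2 q + 1) (by omega) (by simpa using h1) h2 r hrq ?_
  set l := Nat.log 2 q + 1
  by_contra hcon
  push Not at hcon
  have hb : n < 2 ^ (36400001 * (q * l ^ 2)) := by
    have e : 36400001 * (q * l ^ 2) = 36400000 * (q * l ^ 2) + q * l ^ 2 := by ring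
    rw [e, pow_add]
    have hQ : q ≤ 2 ^ (q * l ^ 2) := by
      have : q < 2 ^ q := Nat.lt_two_pow_self
      refine this.le.trans (Nat.pow_le_pow_right (by norm_num) ?_)
      exact Nat.le_mul_of_pos_right _ (by positivity)
    have h5 : (q - 1) * r + 1 ≤ q * r + 1 := by
      have : (q - 1) * r ≤ q * r := Nat.mul_le_mul_right _ (by omega)
      omega
    have h6 : q * r + 1 ≤ q * (r + 1) := by nlinarith
    have h7 : r + 1 ≤ 2 ^ (36400000 * (q * l ^ 2)) := hcon
    have h8 : (q - 1) * r + 1 < q * (r + 1) := by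
      have : (q - 1) * r ≤ q * r := Nat.mul_le_mul_right _ (by omega)
      nlinarith
    calc n = (q - 1) * r + 1 := hr
      _ < q * (r + 1) := h8
      _ ≤ 2 ^ (q * l ^ 2) * 2 ^ (36400000 * (q * l ^ 2)) := Nat.mul_le_mul hQ h7
      _ = _ := by ring
  omega

theorem exp_bound {q : ℕ} (hq : 3 ≤ q) (n : ℕ)
    (hn : Real.exp (2 * 10 ^ 8 * q * Real.log q ^ 2) ≤ n) :
    2 ^ (36400001 * (q * (Nat.log 2 q + 1) ^ 2)) ≤ n := by
  set l := Nat.log 2 q + 1 with hl
  have hlog2 : 0 < Real.log 2 := Real.log_pos (by norm_num)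
  have hq0 : (0:ℝ) < q := by positivity
  have h1 : 2 ^ Nat.log 2 q ≤ q := Nat.pow_log_le_self 2 (by omega)
  have h1' : (Nat.log 2 q : ℝ) * Real.log 2 ≤ Real.log q := by
    rw [← Real.log_pow]
    exact Real.log_le_log (by positivity) (by exact_mod_cast h1)
  have hl2 : 2 * ((l : ℝ) * Real.log 2) ≤ 3 * Real.log q := by
    rcases Nat.lt_or_ge q 4 with h | h
    · have hq3 : q = 3 := by omega
      have e : Nat.log 2 3 = 1 := by
        rw [Nat.log_eq_iff (by norm_num)]
        norm_num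
      rw [hl, hq3, e]
      -- 4 log 2 ≤ 3 log 3
      have h3 : Real.log ((2:ℝ) ^ 4) ≤ Real.log ((3:ℝ) ^ 3) :=
        Real.log_le_log (by norm_num) (by norm_num)
      rw [Real.log_pow, Real.log_pow] at h3
      push_cast at h3 ⊢
      linarith
    · have h4 : 2 * Real.log 2 ≤ Real.log q := by
        have : Real.log ((2:ℝ) ^ 2) ≤ Real.log q :=
          Real.log_le_log (by norm_num) (by norm_num; exact h)
        rw [Real.log_pow] at this
        push_cast at this
        exact this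
      have : (l : ℝ) = (Nat.log 2 q : ℝ) + 1 := by rw [hl]; push_cast; ring
      rw [this]
      nlinarith
  have hnpos : (0:ℝ) < n := lt_of_lt_of_le (Real.exp_pos _) hn
  have hmain : ((2 ^ (36400001 * (q * l ^ 2)) : ℕ) : ℝ) ≤ n := by
    refine le_trans ?_ hn
    rw [← Real.log_le_iff_le_exp (by positivity)]
    push_cast
    rw [Real.log_pow]
    push_cast
    -- 36400001 * (q * l^2) * log 2 ≤ 2e8 * q * log q ^2
    have hL0 : 0 ≤ Real.log q := Real.log_nonneg (by exact_mod_cast (by omega : 1 ≤ q))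
    have h5 : (2 * ((l : ℝ) * Real.log 2)) ^ 2 ≤ (3 * Real.log q) ^ 2 :=
      pow_le_pow_left₀ (by positivity) hl2 2
    have h6 : 4 * ((l:ℝ) ^ 2 * Real.log 2 ^ 2) ≤ 9 * Real.log q ^ 2 := by nlinarith
    have h7 : (0.6931:ℝ) < Real.log 2 := by
      have := Real.log_two_gt_d9; linarith
    have h8 : 36400001 * ((l:ℝ) ^ 2 * Real.log 2) ≤ 2 * 10 ^ 8 * Real.log q ^ 2 := by
      have h9 : 0.6931 * (4 * ((l:ℝ) ^ 2 * Real.log 2)) ≤ 9 * Real.log q ^ 2 := by
        refine le_trans ?_ h6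
        have : 0 ≤ (l:ℝ) ^ 2 * Real.log 2 := by positivity
        nlinarith
      nlinarith [sq_nonneg (Real.log q)]
    have h10 := mul_le_mul_of_nonneg_left h8 hq0.le
    nlinarith [h10]
  exact_mod_cast hmain

/-- **Main theorem.** -/
theorem steiner_exp {q : ℕ} (hq : IsPrimePow q) (n : ℕ)
    (hn : Real.exp (2 * 10 ^ 8 * q * Real.log q ^ 2) ≤ n)
    (hD : ∀ i < 2, (q - i).choose (2 - i) ∣ (n - i).choose (2 - i)) :
    ∃ 𝓑 : Finset (Finset (Fin n)), (∀ B ∈ 𝓑, B.card = q) ∧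
      ∀ R : Finset (Fin n), R.card = 2 → ∃! B, B ∈ 𝓑 ∧ R ⊆ B := by
  classical
  have hq2 : 2 ≤ q := hq.two_le
  have hPB : PB {q} n := by
    rcases Nat.lt_or_ge q 3 with h | h
    · have : q = 2 := by omega
      rw [this]; exact PB_two n
    · exact steiner_nat hq n (exp_bound h n hn) hD
  obtain ⟨𝓑, h1, h2⟩ := hPB
  refine ⟨Finset.univ.filter (· ∈ 𝓑), ?_, ?_⟩
  · intro B hB
    rw [Finset.mem_filter] at hB
    exact (h1 B hB.2).1
  · intro R hR
    obtain ⟨x, y, hxy, rfl⟩ := Finset.card_eq_two.1 hR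
    obtain ⟨B, ⟨hB, hx, hy⟩, hU⟩ := h2 x y (by simpa using hxy)
    refine ⟨B, ⟨by simpa using hB, ?_⟩, ?_⟩
    · intro z hz
      simp only [Finset.mem_insert, Finset.mem_singleton] at hz
      rcases hz with rfl | rfl
      · exact hx
      · exact hy
    · rintro C ⟨hC, hRC⟩
      rw [Finset.mem_filter] at hC
      exact hU C ⟨hC.2, hRC (by simp), hRC (by simp)⟩

end Pool.Agent.WB
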