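import Pool.Agent.WB.Basic

set_option autoImplicit false
set_option linter.unusedSectionVars false

namespace Pool.Agent.WB

/-- Independence of two vectors, in coordinates. -/
def Ind (F : Type) [Field F] {V : Type} [AddCommGroup V] [Module F V] (x y : V) : Prop :=
  ∀ c d : F, c • x + d • y = 0 → c = 0 ∧ d = 0

section
variable {F : Type} [Field F] [Fintype F] {V : Type} [AddCommGroup V] [Module F V]

/-- The affine line `{x + t b}`. -/
noncomputable def line (F : Type) [Field F] [Fintype F] {V : Type} [AddCommGroup V] [Module F V]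
    (a b : V) (h : ∀ t : F, a + t • b ≠ 0) : Finset {v : V // v ≠ 0} := by
  classical
  exact Finset.univ.image (fun t : F => (⟨a + t • b, h t⟩ : {v : V // v ≠ 0}))

theorem mem_line (a b : V) (h : ∀ t : F, a + t • b ≠ 0) (x : {v : V // v ≠ 0}) :
    x ∈ line F a b h ↔ ∃ t : F, a + t • b = x := by
  classical
  unfold line
  rw [Finset.mem_image]
  constructor
  · rintro ⟨t, -, rfl⟩
    exact ⟨t, rfl⟩
  · rintro ⟨t, ht⟩
    exact ⟨t, Finset.mem_univ _, Subtype.ext ht⟩

theorem Ind.ne {a b : V} (h : Ind F a b) (t : F) : a + t • b ≠ 0 := by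
  intro h0
  have := (h 1 t (by rw [one_smul]; exact h0)).1
  exact one_ne_zero this

theorem Ind.b_ne {a b : V} (h : Ind F a b) : b ≠ 0 := by
  rintro rfl
  have := (h 0 1 (by simp)).2
  exact one_ne_zero this

theorem card_line {a b : V} (h : Ind F a b) :
    (line F a b h.ne).card = Fintype.card F := by
  classical
  unfold line
  rw [Finset.card_image_of_injective, Finset.card_univ]
  intro s t hst
  have h1 : a + s • b = a + t • b := congrArg Subtype.val hst
  have h2 : (s - t) • b = 0 := by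
    rw [sub_smul, sub_eq_zero]
    exact add_left_cancel h1
  rcases smul_eq_zero.1 h2 with h3 | h3
  · exact sub_eq_zero.1 h3
  · exact absurd h3 h.b_ne

/-- dependence of two nonzero vectors. -/
theorem mk_eq_of_not_ind {x y : V} (hx : x ≠ 0) (hy : y ≠ 0) (h : ¬ Ind F x y) :
    Projectivization.mk F x hx = Projectivization.mk F y hy := by
  unfold Ind at h
  push Not at h
  obtain ⟨c, d, hcd, hne⟩ := h
  have hc : c ≠ 0 := by
    intro hc
    rw [hc, zero_smul, zero_add] at hcd
    rcases smul_eq_zero.1 hcd with h3 | h3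
    · exact hne hc h3
    · exact hy h3
  rw [Projectivization.mk_eq_mk_iff']
  refine ⟨-(c⁻¹ * d), ?_⟩
  have : x = c⁻¹ • (c • x) := by rw [smul_smul, inv_mul_cancel₀ hc, one_smul]
  rw [this, eq_neg_of_add_eq_zero_left hcd]
  rw [smul_neg, smul_smul, neg_smul]

theorem mk_ne_of_ind {x y : V} (hx : x ≠ 0) (hy : y ≠ 0) (h : Ind F x y) :
    Projectivization.mk F x hx ≠ Projectivization.mk F y hy := by
  intro h0
  rw [Projectivization.mk_eq_mk_iff'] at h0
  obtain ⟨a, ha⟩ := h0
  have := (h 1 (-a) (by rw [one_smul, neg_smul, ha, add_neg_cancel])).1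
  exact one_ne_zero this

theorem ind_of_line {a b : V} (h : Ind F a b) {s t : F} (hst : s ≠ t) :
    Ind F (a + s • b) (a + t • b) := by
  intro c d hcd
  have h1 : (c + d) • a + (c * s + d * t) • b = 0 := by
    rw [← hcd]
    module
  obtain ⟨h2, h3⟩ := h _ _ h1
  have h4 : d = - c := by linear_combination h2
  rw [h4] at h3
  have h5 : c * (s - t) = 0 := by linear_combination h3
  rcases mul_eq_zero.1 h5 with h6 | h6
  · exact ⟨h6, by rw [h4, h6, neg_zero]⟩
  · exact absurd (sub_eq_zero.1 h6) hst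

theorem ind_sub {x y : V} (h : Ind F x y) : Ind F x (y - x) := by
  intro c d hcd
  have h1 : (c - d) • x + d • y = 0 := by
    rw [← hcd]; module
  obtain ⟨h2, h3⟩ := h _ _ h1
  exact ⟨by rw [← sub_eq_zero.1 h2] at h3; exact h3, h3⟩

theorem line_eq {a b : V} (h : Ind F a b) {x y : {v : V // v ≠ 0}} (hxy : x ≠ y)
    (hx : x ∈ line F a b h.ne) (hy : y ∈ line F a b h.ne) (h' : Ind F (x : V) (y - x)) :
    line F a b h.ne = line F (x : V) (y - x) h'.ne := by
  rw [mem_line] at hx hy
  obtain ⟨s, hs⟩ := hx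
  obtain ⟨t, ht⟩ := hy
  have hst : t - s ≠ 0 := by
    intro h0
    apply hxy
    apply Subtype.ext
    rw [← hs, ← ht, sub_eq_zero.1 h0]
  ext z
  rw [mem_line, mem_line]
  constructor
  · rintro ⟨r, hr⟩
    refine ⟨(r - s) / (t - s), ?_⟩
    have h1 : ((y : V) - x) = (t - s) • b := by
      rw [← hs, ← ht]; module
    rw [h1, smul_smul, div_mul_cancel₀ _ hst, ← hs, ← hr]
    module
  · rintro ⟨r, hr⟩
    refine ⟨s + r * (t - s), ?_⟩
    rw [← hr, ← hs, ← ht]
    module

theorem CDec.lines : CDec {Fintype.card F}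
    (MP (fun x : {v : V // v ≠ 0} => Projectivization.mk F (x : V) x.2)) := by
  refine ⟨{B | ∃ (a b : V) (h : Ind F a b), B = line F a b h.ne}, ?_, ?_⟩
  · rintro B ⟨a, b, h, rfl⟩
    refine ⟨card_line h, ?_⟩
    intro x hx y hy hxy
    rw [MP_adj]
    rw [Finset.mem_coe, mem_line] at hx hy
    obtain ⟨s, hs⟩ := hx
    obtain ⟨t, ht⟩ := hy
    apply mk_ne_of_ind
    rw [← hs, ← ht]
    apply ind_of_line h
    rintro rfl
    apply hxy
    apply Subtype.ext
    rw [← hs, ← ht]
  · intro x y hxy
    rw [MP_adj] at hxy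
    have hind : Ind F (x : V) (y : V) := by
      by_contra h
      exact hxy (mk_eq_of_not_ind x.2 y.2 h)
    have h' := ind_sub hind
    refine ⟨line F (x : V) (y - x) h'.ne, ⟨⟨x, y - x, h', rfl⟩, ?_, ?_⟩, ?_⟩
    · rw [mem_line]; exact ⟨0, by simp⟩
    · rw [mem_line]; exact ⟨1, by simp⟩
    · rintro B ⟨⟨a, b, h, rfl⟩, hx, hy⟩
      refine line_eq h ?_ hx hy h'
      rintro rfl
      exact hxy rfl

end

theorem card_fibre {F : Type} [Field F] [Fintype F] {V : Type} [AddCommGroup V] [Module F V]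
    (i : Projectivization F V) :
    Nat.card {x : {v : V // v ≠ 0} // Projectivization.mk F (x : V) x.2 = i} =
      Nat.card F - 1 := by
  rw [← Nat.card_units]
  symm
  have h0 : i.rep ≠ 0 := i.rep_nonzero
  have hmk : ∀ u : Fˣ, (u : F) • i.rep ≠ 0 := fun u h => by
    rcases smul_eq_zero.1 h with h | h
    · exact u.ne_zero h
    · exact h0 h
  have hmk2 : ∀ u : Fˣ, Projectivization.mk F ((u : F) • i.rep) (hmk u) = i := by
    intro u
    conv_rhs => rw [← i.mk_rep]
    rw [Projectivization.mk_eq_mk_iff']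
    exact ⟨u, rfl⟩
  refine Nat.card_congr (Equiv.ofBijective
    (fun u => ⟨⟨(u : F) • i.rep, hmk u⟩, hmk2 u⟩) ⟨?_, ?_⟩)
  · intro u u' huu
    have h1 : (u : F) • i.rep = (u' : F) • i.rep := congrArg (fun x => (x.1 : V)) huu
    have h2 : ((u : F) - u') • i.rep = 0 := by rw [sub_smul, h1, sub_self]
    rcases smul_eq_zero.1 h2 with h | h
    · exact Units.ext (sub_eq_zero.1 h)
    · exact absurd h h0
  · rintro ⟨⟨x, hx⟩, hxi⟩
    have h1 : Projectivization.mk F x hx = Projectivization.mk F i.rep h0 := by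
      rw [i.mk_rep]; exact hxi
    rw [Projectivization.mk_eq_mk_iff] at h1
    obtain ⟨u, hu⟩ := h1
    refine ⟨u, ?_⟩
    apply Subtype.ext
    apply Subtype.ext
    exact hu

theorem AG_field (F : Type) [Field F] [Fintype F] (n : ℕ) :
    GD (Fintype.card F) (Fintype.card F - 1) (theta (Fintype.card F) n) := by
  classical
  have hcard : Nat.card (Projectivization F (Fin n → F)) = theta (Fintype.card F) n := by
    rw [Projectivization.card_of_finrank F (Fin n → F) (n := n) (by simp)]
    unfold theta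
    rw [Nat.card_eq_fintype_card]
  have : Finite (Projectivization F (Fin n → F)) :=
    (Projectivization.finite_iff_of_finite F (Fin n → F)).2 inferInstance
  refine GD.of (fun x : {v : Fin n → F // v ≠ 0} => Projectivization.mk F (x : Fin n → F) x.2)
    hcard ?_ CDec.lines
  intro i
  rw [card_fibre, Nat.card_eq_fintype_card]

theorem AG {k : ℕ} (hk : IsPrimePow k) (n : ℕ) : GD k (k - 1) (theta k n) := by
  have hne : Nonempty (Fin k) := ⟨⟨0, hk.pos⟩⟩
  obtain ⟨hF⟩ : Nonempty (Field (Fin k)) := by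
    rw [Fintype.nonempty_field_iff]
    simpa using hk
  have main := @AG_field (Fin k) hF _ n
  rw [Fintype.card_fin] at main
  exact main

end Pool.Agent.WB
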