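import Pool.Agent.WB.G1

set_option autoImplicit false

/-! Module G2: every point of a pairwise balanced design is replaced by a group of `w` points. -/

namespace Pool.Agent.WB

theorem G2 {S : Set ℕ} {k w v : ℕ} (h : PB S v) (hS : ∀ κ ∈ S, GD k w κ) : GD k w v := by
  obtain ⟨𝓑, hB, hU⟩ := h
  refine GD.of_prod (A := Fin v) (M := Fin w) (by simp) (by simp) ?_
  refine CDec.glue (fun B : {B // B ∈ 𝓑} => infl (Fin w) B.1) ?_ ?_ ?_
  · rintro ⟨B, hBm⟩ x y ⟨hx, hy, hxy⟩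
    rw [MP_adj]
    exact hxy
  · intro x y hxy
    rw [MP_adj] at hxy
    obtain ⟨B, ⟨hBm, hx, hy⟩, huniq⟩ := hU x.1 y.1 hxy
    refine ⟨⟨B, hBm⟩, ⟨hx, hy, hxy⟩, ?_⟩
    rintro ⟨B', hB'⟩ ⟨hx', hy', -⟩
    exact Subtype.ext (huniq B' ⟨hB', hx', hy'⟩)
  · rintro ⟨B, hBm⟩
    exact infl_cdec B (hS _ (hB B hBm).1) (by simp)

end Pool.Agent.WB
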