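import Pool.Agent.WB.Basic

set_option autoImplicit false

/-! Module G3: the groups of a group divisible design are filled with group divisible designs. -/

namespace Pool.Agent.WB

/-- The edges of `(Fin v × Fin m) × Fin w` inside the groups of the first coordinate. -/
def inner (v m w : ℕ) : SimpleGraph ((Fin v × Fin m) × Fin w) where
  Adj x y := x.1.1 = y.1.1 ∧ x.1.2 ≠ y.1.2
  symm := ⟨fun _ _ h => ⟨h.1.symm, h.2.symm⟩⟩
  loopless := ⟨fun _ h => h.2 rfl⟩

/-- The edges inside one group of the first coordinate. -/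
def inner1 (v m w : ℕ) (i : Fin v) : SimpleGraph ((Fin v × Fin m) × Fin w) where
  Adj x y := x.1.1 = i ∧ y.1.1 = i ∧ x.1.2 ≠ y.1.2
  symm := ⟨fun _ _ h => ⟨h.2.1, h.1, h.2.2.symm⟩⟩
  loopless := ⟨fun _ h => h.2.2 rfl⟩

theorem G3 {k w m v : ℕ} (h : GD k (w * m) v) (h' : GD k w m) : GD k w (m * v) := by
  refine GD.of_prod (A := Fin v × Fin m) (M := Fin w) (by simp [mul_comm]) (by simp) ?_
  have h1 : CDec {k} (MP (fun x : (Fin v × Fin m) × Fin w => x.1.1)) := by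
    refine h.to _ (by simp) ?_
    intro i
    have e : {x : (Fin v × Fin m) × Fin w // x.1.1 = i} ≃ Fin m × Fin w :=
      { toFun := fun x => (x.1.1.2, x.1.2)
        invFun := fun x => ⟨((i, x.1), x.2), rfl⟩
        left_inv := by rintro ⟨⟨⟨a, b⟩, c⟩, rfl⟩; rfl
        right_inv := fun x => rfl }
    rw [Nat.card_congr e]
    simp [mul_comm]
  have h2 : CDec {k} (inner v m w) := by
    refine CDec.glue (fun i : Fin v => inner1 v m w i) ?_ ?_ ?_
    · rintro i x y ⟨hx, hy, hxy⟩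
      exact ⟨hx.trans hy.symm, hxy⟩
    · rintro x y ⟨hxy, hne⟩
      refine ⟨x.1.1, ⟨rfl, hxy.symm, hne⟩, ?_⟩
      rintro j ⟨hj, -, -⟩
      exact hj.symm
    · intro i
      refine CDec.map (fun x : Fin m × Fin w => ((i, x.1), x.2)) ?_ ?_ ?_ h'
      · rintro ⟨a, b⟩ ⟨c, d⟩ hxy
        simp only [Prod.mk.injEq] at hxy
        exact Prod.ext hxy.1.2 hxy.2
      · rintro ⟨a, b⟩ ⟨c, d⟩ hxy
        rw [MP_adj] at hxy
        exact ⟨rfl, rfl, hxy⟩
      · rintro ⟨⟨x1, x2⟩, x3⟩ ⟨⟨y1, y2⟩, y3⟩ ⟨hx, hy, hxy⟩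
        simp only at hx hy hxy
        subst hx
        subst hy
        refine ⟨(x2, x3), (y2, y3), ?_, rfl, rfl⟩
        rw [MP_adj]
        exact hxy
  refine CDec.sup ?_ ?_ h1 h2
  · rintro ⟨⟨x1, x2⟩, x3⟩ ⟨⟨y1, y2⟩, y3⟩
    rw [MP_adj, MP_adj]
    simp only [ne_eq, Prod.mk.injEq, inner]
    tauto
  · intro x y hxy h
    rw [MP_adj] at hxy
    exact hxy h.1

end Pool.Agent.WB
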