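import Pool.Agent.WB.Basic

set_option autoImplicit false

/-! Module G6: adding a point at infinity to every group. -/

namespace Pool.Agent.WB

/-- The group `i` with the point at infinity. -/
def g6B (r w : ℕ) (i : Fin r) : Finset (Option (Fin r × Fin w)) :=
  Finset.insertNone ((Finset.univ : Finset (Fin w)).map
    ⟨fun j => (i, j), fun a b h => (Prod.mk.injEq _ _ _ _ ▸ h : _ ∧ _).2⟩)

theorem g6B_card (r w : ℕ) (i : Fin r) : (g6B r w i).card = w + 1 := by
  unfold g6B
  rw [Finset.card_insertNone, Finset.card_map, Finset.card_univ, Fintype.card_fin]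

theorem g6_none (r w : ℕ) (i : Fin r) : none ∈ g6B r w i := by
  unfold g6B
  simp [Finset.mem_insertNone]

theorem g6_some (r w : ℕ) (i : Fin r) (x : Fin r × Fin w) : some x ∈ g6B r w i ↔ x.1 = i := by
  unfold g6B
  rw [Finset.some_mem_insertNone, Finset.mem_map]
  constructor
  · rintro ⟨j, -, rfl⟩
    rfl
  · rintro rfl
    exact ⟨x.2, Finset.mem_univ _, rfl⟩

/-- The pieces. -/
def g6H (r w : ℕ) : Option (Fin r) → SimpleGraph (Option (Fin r × Fin w))
  | none => (MP (Prod.fst : Fin r × Fin w → Fin r)).map Function.Embedding.some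
  | some i =>
    { Adj := fun a b => a ∈ g6B r w i ∧ b ∈ g6B r w i ∧ a ≠ b
      symm := ⟨fun _ _ h => ⟨h.2.1, h.1, h.2.2.symm⟩⟩
      loopless := ⟨fun _ h => h.2.2 rfl⟩ }

theorem g6H_none (r w : ℕ) (a b : Option (Fin r × Fin w)) :
    (g6H r w none).Adj a b ↔ ∃ x y, x.1 ≠ y.1 ∧ some x = a ∧ some y = b := by
  unfold g6H
  rw [SimpleGraph.map_adj]
  simp only [MP_adj]
  rfl

theorem G6 {k r : ℕ} (hk : 1 ≤ k) (h : GD k (k - 1) r) : PB {k} ((k - 1) * r + 1) := by
  refine PB.of (V := Option (Fin r × Fin (k - 1))) ?_ ?_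
  · simp [mul_comm]
  refine CDec.glue (g6H r (k - 1)) ?_ ?_ ?_
  · intro j x y hxy
    exact hxy.ne
  · intro a b hab
    have hab : a ≠ b := hab
    cases a with
    | none =>
      cases b with
      | none => exact absurd rfl hab
      | some y =>
        refine ⟨some y.1, ⟨g6_none _ _ _, (g6_some _ _ _ _).2 rfl, hab⟩, ?_⟩
        intro j hj
        cases j with
        | none =>
          obtain ⟨x', y', -, h1, h2⟩ := (g6H_none _ _ _ _).1 hj
          exact absurd h1 (by simp)
        | some i => rw [(g6_some _ _ _ _).1 hj.2.1]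
    | some x =>
      cases b with
      | none =>
        refine ⟨some x.1, ⟨(g6_some _ _ _ _).2 rfl, g6_none _ _ _, hab⟩, ?_⟩
        intro j hj
        cases j with
        | none =>
          obtain ⟨x', y', -, h1, h2⟩ := (g6H_none _ _ _ _).1 hj
          exact absurd h2 (by simp)
        | some i => rw [(g6_some _ _ _ _).1 hj.1]
      | some y =>
        by_cases hxy : x.1 = y.1
        · refine ⟨some x.1, ⟨(g6_some _ _ _ _).2 rfl, (g6_some _ _ _ _).2 hxy.symm, hab⟩, ?_⟩
          intro j hj
          cases j with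
          | none =>
            obtain ⟨x', y', h0, h1, h2⟩ := (g6H_none _ _ _ _).1 hj
            rw [Option.some.inj h1, Option.some.inj h2] at h0
            exact absurd hxy h0
          | some i => rw [(g6_some _ _ _ _).1 hj.1]
        · refine ⟨none, (g6H_none _ _ _ _).2 ⟨x, y, hxy, rfl, rfl⟩, ?_⟩
          intro j hj
          cases j with
          | none => rfl
          | some i =>
            exact absurd (((g6_some _ _ _ _).1 hj.1).trans ((g6_some _ _ _ _).1 hj.2.1).symm) hxy
  · intro j
    cases j with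
    | none =>
      refine CDec.map some (Option.some_injective _) ?_ ?_ h
      · intro x y hxy
        exact (g6H_none _ _ _ _).2 ⟨x, y, (MP_adj _ _ _).1 hxy, rfl, rfl⟩
      · intro a b hab
        obtain ⟨x, y, h0, h1, h2⟩ := (g6H_none _ _ _ _).1 hab
        exact ⟨x, y, (MP_adj _ _ _).2 h0, h1, h2⟩
    | some i =>
      refine CDec.clique (g6B r (k - 1) i) ?_ fun x y => Iff.rfl
      rw [g6B_card]
      show k - 1 + 1 = k
      omega

end Pool.Agent.WB
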