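import Pool.Agent.WB.Basic

set_option autoImplicit false

namespace Pool.Agent.WB

/-- Restriction along an injective map. -/
theorem CDec.restrict {V W : Type} [Fintype W] {S S' : Set ℕ} {Γ : SimpleGraph V}
    (φ : W → V) (hφ : Function.Injective φ)
    (hS : ∀ B : Finset V, B.card ∈ S → Γ.IsClique (B : Set V) →
      ∀ C : Finset W, (∀ x, x ∈ C ↔ φ x ∈ B) → C.card ∈ S')
    (hd : CDec S Γ) : CDec S' (Γ.comap φ) := by
  classical
  obtain ⟨𝓑, h1, h2⟩ := hd
  have hmem : ∀ (B : Finset V) (x : W), x ∈ Finset.univ.filter (fun x => φ x ∈ B) ↔ φ x ∈ B := by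
    intro B x
    simp
  refine ⟨{C | ∃ B ∈ 𝓑, C = Finset.univ.filter (fun x => φ x ∈ B)}, ?_, ?_⟩
  · rintro C ⟨B, hB, rfl⟩
    refine ⟨hS B (h1 B hB).1 (h1 B hB).2 _ (hmem B), ?_⟩
    intro x hx y hy hxy
    rw [Finset.mem_coe, hmem] at hx hy
    rw [SimpleGraph.comap_adj]
    exact (h1 B hB).2 hx hy (hφ.ne hxy)
  · intro x y hxy
    rw [SimpleGraph.comap_adj] at hxy
    obtain ⟨B, ⟨hB, hx, hy⟩, hU⟩ := h2 _ _ hxy
    refine ⟨_, ⟨⟨B, hB, rfl⟩, (hmem B x).2 hx, (hmem B y).2 hy⟩, ?_⟩
    rintro C ⟨⟨B', hB', rfl⟩, hx', hy'⟩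
    rw [hU B' ⟨hB', (hmem B' x).1 hx', (hmem B' y).1 hy'⟩]

theorem G7 {s t u : ℕ} (h : TD (s + 1) t) (hu : u ≤ t) :
    PB {s, s + 1, t, u} (s * t + u) := by
  classical
  let φ : (Fin s × Fin t) ⊕ Fin u → Fin (s + 1) × Fin t := fun x =>
    match x with
    | Sum.inl p => (p.1.castSucc, p.2)
    | Sum.inr θ => (Fin.last s, Fin.castLE hu θ)
  have hφ : Function.Injective φ := by
    rintro (⟨i, j⟩ | θ) (⟨i', j'⟩ | θ') hxy
    · have h1 : i.castSucc = i'.castSucc := congrArg Prod.fst hxy
      have h2 : j = j' := congrArg Prod.snd hxy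
      rw [Fin.castSucc_inj] at h1
      rw [h1, h2]
    · have h1 : i.castSucc = Fin.last s := congrArg Prod.fst hxy
      exact absurd h1 (Fin.castSucc_lt_last i).ne
    · have h1 : Fin.last s = i'.castSucc := congrArg Prod.fst hxy
      exact absurd h1 (Fin.castSucc_lt_last i').ne'
    · have h2 : Fin.castLE hu θ = Fin.castLE hu θ' := congrArg Prod.snd hxy
      rw [Fin.castLE_injective hu h2]
  have hr : ∀ x : Fin (s + 1) × Fin t, x ∉ Set.range φ → x.1 = Fin.last s := by
    rintro ⟨i, j⟩ hx
    by_contra hne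
    apply hx
    refine ⟨Sum.inl (i.castPred hne, j), ?_⟩
    exact Prod.ext (Fin.castSucc_castPred i hne) rfl
  have hV : Nat.card ((Fin s × Fin t) ⊕ Fin u) = s * t + u := by simp
  refine PB.of hV ?_
  have h1 : CDec {s, s + 1, t, u} ((MP (Prod.fst : Fin (s + 1) × Fin t → Fin (s + 1))).comap φ) := by
    refine CDec.restrict φ hφ ?_ h
    intro B hB hcl C hC
    have e1 : C.card = (B.filter (fun x => x ∈ Set.range φ)).card := by
      rw [← Finset.card_map ⟨φ, hφ⟩]
      congr 1
      ext x
      rw [Finset.mem_map, Finset.mem_filter]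
      constructor
      · rintro ⟨y, hy, rfl⟩
        exact ⟨(hC y).1 hy, ⟨y, rfl⟩⟩
      · rintro ⟨hx, ⟨y, rfl⟩⟩
        exact ⟨y, (hC y).2 hx, rfl⟩
    have e2 := Finset.card_filter_add_card_filter_not (s := B) (fun x => x ∈ Set.range φ)
    have e3 : (B.filter (fun x => ¬ x ∈ Set.range φ)).card ≤ 1 := by
      rw [Finset.card_le_one]
      intro a ha b hb
      rw [Finset.mem_filter] at ha hb
      by_contra hab
      have := hcl ha.1 hb.1 hab
      rw [MP_adj] at this
      exact this (by rw [hr a ha.2, hr b hb.2])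
    have hB' : B.card = s + 1 := hB
    have : C.card = s ∨ C.card = s + 1 := by omega
    rcases this with h | h
    · rw [h]; simp
    · rw [h]; simp
  let Γ₂ : SimpleGraph ((Fin s × Fin t) ⊕ Fin u) :=
    { Adj := fun x y => (φ x).1 = (φ y).1 ∧ x ≠ y
      symm := ⟨fun x y h => ⟨h.1.symm, h.2.symm⟩⟩
      loopless := ⟨fun x h => h.2 rfl⟩ }
  have h2 : CDec {s, s + 1, t, u} Γ₂ := by
    let H : Fin (s + 1) → SimpleGraph ((Fin s × Fin t) ⊕ Fin u) := fun i =>
      { Adj := fun x y => (φ x).1 = i ∧ (φ y).1 = i ∧ x ≠ y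
        symm := ⟨fun x y h => ⟨h.2.1, h.1, h.2.2.symm⟩⟩
        loopless := ⟨fun x h => h.2.2 rfl⟩ }
    refine CDec.glue H ?_ ?_ ?_
    · intro i x y hxy
      exact ⟨hxy.1.trans hxy.2.1.symm, hxy.2.2⟩
    · intro x y hxy
      refine ⟨(φ x).1, ⟨rfl, hxy.1.symm, hxy.2⟩, ?_⟩
      intro j hj
      exact hj.1.symm
    · intro i
      by_cases hi : i = Fin.last s
      · refine CDec.clique (Finset.univ.map ⟨Sum.inr, Sum.inr_injective⟩) ?_ ?_
        · simp
        · intro x y
          have key : ∀ x : (Fin s × Fin t) ⊕ Fin u,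
              (φ x).1 = i ↔ x ∈ Finset.univ.map (⟨Sum.inr, Sum.inr_injective⟩ :
                Fin u ↪ (Fin s × Fin t) ⊕ Fin u) := by
            rintro (⟨i', j'⟩ | θ)
            · constructor
              · intro h
                have h' : i'.castSucc = i := h
                rw [hi] at h'
                exact absurd h' (Fin.castSucc_lt_last i').ne
              · intro h; simp at h
            · constructor
              · intro _; simp
              · intro _; exact hi.symm
          rw [← key x, ← key y]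
      · refine CDec.clique (Finset.univ.map ⟨fun j => Sum.inl (i.castPred hi, j), ?_⟩) ?_ ?_
        · intro j j' hjj
          simpa using hjj
        · simp
        · intro x y
          have key : ∀ x : (Fin s × Fin t) ⊕ Fin u,
              (φ x).1 = i ↔ ∃ j, Sum.inl (i.castPred hi, j) = x := by
            rintro (⟨i', j'⟩ | θ)
            · constructor
              · intro h
                have h' : i'.castSucc = i := h
                refine ⟨j', ?_⟩
                subst h'
                rw [Fin.castPred_castSucc]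
              · rintro ⟨j, hj⟩
                rw [← hj]
                exact Fin.castSucc_castPred i hi
            · constructor
              · intro h
                have h' : Fin.last s = i := h
                exact absurd h'.symm hi
              · rintro ⟨j, hj⟩
                exact absurd hj (by simp)
          rw [Finset.mem_map, Finset.mem_map]
          show (φ x).1 = i ∧ (φ y).1 = i ∧ x ≠ y ↔ _
          rw [key x, key y]
          constructor
          · rintro ⟨⟨j, hj⟩, ⟨j', hj'⟩, h⟩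
            exact ⟨⟨j, Finset.mem_univ _, hj⟩, ⟨j', Finset.mem_univ _, hj'⟩, h⟩
          · rintro ⟨⟨j, -, hj⟩, ⟨j', -, hj'⟩, h⟩
            exact ⟨⟨j, hj⟩, ⟨j', hj'⟩, h⟩
  refine CDec.sup ?_ ?_ h1 h2
  · intro x y
    rw [SimpleGraph.comap_adj, MP_adj, SimpleGraph.top_adj]
    show x ≠ y ↔ (φ x).1 ≠ (φ y).1 ∨ ((φ x).1 = (φ y).1 ∧ x ≠ y)
    constructor
    · intro h
      by_cases h' : (φ x).1 = (φ y).1
      · exact Or.inr ⟨h', h⟩
      · exact Or.inl h'
    · rintro (h | h)
      · rintro rfl; exact h rfl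
      · exact h.2
  · intro x y hxy h'
    rw [SimpleGraph.comap_adj, MP_adj] at hxy
    exact hxy h'.1

end Pool.Agent.WB
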