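import Pool.Agent.WB.YL

set_option autoImplicit false

/-! The closure argument: from closure of `X` under `t, u ↦ k * t + u` to all large `v ≡ 0, 1`. -/

namespace Pool.Agent.WB

theorem xy_bern (k : ℕ) (hk : 1 ≤ k) : 2 * k ^ k ≤ (k + 1) ^ k := by
  have hk0 : (0 : ℝ) < k := by exact_mod_cast hk
  have h1 : (1 : ℝ) + k * (1 / k) ≤ (1 + 1 / k) ^ k :=
    one_add_mul_le_pow (by have : (0 : ℝ) < 1 / k := by positivity
                           linarith) k
  have h2 : (1 : ℝ) + k * (1 / k) = 2 := by field_simp; norm_num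
  rw [h2] at h1
  have h3 : ((2 * k ^ k : ℕ) : ℝ) ≤ (((k + 1) ^ k : ℕ) : ℝ) := by
    push_cast
    have h4 : ((k : ℝ) + 1) ^ k = (k : ℝ) ^ k * (1 + 1 / k) ^ k := by
      rw [← mul_pow]
      congr 1
      field_simp
    rw [h4, mul_comm]
    exact mul_le_mul_of_nonneg_left h1 (by positivity)
  exact_mod_cast h3

theorem xy_bern' (k l : ℕ) (hk : 1 ≤ k) (hl : k ≤ 2 ^ l) :
    k * k ^ (k * l) ≤ (k + 1) ^ (k * l) := by
  calc k * k ^ (k * l) ≤ 2 ^ l * k ^ (k * l) := Nat.mul_le_mul_right _ hl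
    _ = (2 * k ^ k) ^ l := by rw [mul_pow, ← pow_mul]
    _ ≤ ((k + 1) ^ k) ^ l := Nat.pow_le_pow_left (xy_bern k hk) l
    _ = (k + 1) ^ (k * l) := by rw [← pow_mul]

theorem X_big (k l n0 T : ℕ) (X : Set ℕ) (hk : 2 ≤ k) (hl : k ≤ 2 ^ l) (hT : T ≤ k ^ n0)
    (h0 : 0 ∈ X) (h1 : 1 ∈ X) (hpow : ∀ n, k ^ n ∈ X)
    (hcl : ∀ t ∈ X, T ≤ t → ∀ u ∈ X, u ≤ t → k * t + u ∈ X) :
    ∀ v, v % k ≤ 1 → (k + 3) ^ (3 * (k + n0 + k * l + 1)) ≤ v → v ∈ X := by
  have hk0 : 0 < k := by omega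
  have hX : ∀ n, n0 ≤ n → ∀ j, k ^ n * (k + 1) ^ j ∈ X ∧ T ≤ k ^ n * (k + 1) ^ j := by
    intro n hn j
    have hTn : T ≤ k ^ n := hT.trans (Nat.pow_le_pow_right hk0 hn)
    have hTj : ∀ j, T ≤ k ^ n * (k + 1) ^ j := fun j =>
      hTn.trans (Nat.le_mul_of_pos_right _ (Nat.pow_pos (by omega)))
    refine ⟨?_, hTj j⟩
    induction j with
    | zero => simpa using hpow n
    | succ j ih =>
      have h := hcl _ ih (hTj j) _ ih le_rfl
      have h2 : k ^ n * (k + 1) ^ (j + 1) =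
          k * (k ^ n * (k + 1) ^ j) + k ^ n * (k + 1) ^ j := by ring
      rw [h2]; exact h
  set Y : Set ℕ := {y | T ≤ y ∧ k * y ∈ X ∧ k * y + 1 ∈ X} with hY
  have hYmem : ∀ n, n0 ≤ n → ∀ j, k ^ n * (k + 1) ^ j ∈ Y := by
    intro n hn j
    obtain ⟨h2, h3⟩ := hX n hn j
    have h4 : 1 ≤ k ^ n * (k + 1) ^ j :=
      Nat.mul_pos (Nat.pow_pos hk0) (Nat.pow_pos (by omega))
    exact ⟨h3, by simpa using hcl _ h2 h3 0 h0 (Nat.zero_le _), hcl _ h2 h3 1 h1 h4⟩
  have hYstep : ∀ y ∈ Y, ∀ z, (z ∈ Y ∨ z = 0) → z < y →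
      k * y + z ∈ Y ∧ k * y + z + 1 ∈ Y := by
    intro y hy z hz hzy
    obtain ⟨hTy, hy0, hy1⟩ := hy
    have hzX : k * z ∈ X ∧ k * z + 1 ∈ X := by
      rcases hz with hz | rfl
      · exact hz.2
      · simpa using ⟨h0, h1⟩
    have e1 : k * z + k ≤ k * y := by
      calc k * z + k = k * (z + 1) := by ring
        _ ≤ k * y := Nat.mul_le_mul_left _ hzy
    have e2 : y ≤ k * y := Nat.le_mul_of_pos_left _ hk0
    have e3 : T ≤ k * y := hTy.trans e2
    refine ⟨⟨by omega, ?_, ?_⟩, ⟨by omega, ?_, ?_⟩⟩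
    · have h := hcl _ hy0 e3 _ hzX.1 (by omega)
      have h2 : k * (k * y + z) = k * (k * y) + k * z := by ring
      rw [h2]; exact h
    · have h := hcl _ hy0 e3 _ hzX.2 (by omega)
      have h2 : k * (k * y + z) + 1 = k * (k * y) + (k * z + 1) := by ring
      rw [h2]; exact h
    · have h := hcl _ hy1 (by omega) _ hzX.1 (by omega)
      have h2 : k * (k * y + z + 1) = k * (k * y + 1) + k * z := by ring
      rw [h2]; exact h
    · have h := hcl _ hy1 (by omega) _ hzX.2 (by omega)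
      have h2 : k * (k * y + z + 1) + 1 = k * (k * y + 1) + (k * z + 1) := by ring
      rw [h2]; exact h
  set M : ℕ := n0 + k * l + 1 with hM
  have hYcov : ∀ x, k ^ M ≤ x → ∃ y ∈ Y, k * y ≤ x ∧ x < (k + 1) * y := by
    intro x hx
    have hx0 : x ≠ 0 := by
      have := Nat.pow_pos (n := M) hk0
      omega
    have hlog1 : k ^ Nat.log k x ≤ x := Nat.pow_log_le_self k hx0
    have hlog2 : x < k ^ (Nat.log k x + 1) := Nat.lt_pow_succ_log_self (by omega) x
    have hlogM : M ≤ Nat.log k x := (Nat.le_log_iff_pow_le (by omega) hx0).2 hx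
    obtain ⟨N, hN⟩ : ∃ N, Nat.log k x = N + 1 := ⟨Nat.log k x - 1, by omega⟩
    rw [hN] at hlog1 hlog2 hlogM
    -- the first `j` for which the bound fails
    have hex : ∃ j, j ≤ k * l ∧ x < k * (k ^ (N - j) * (k + 1) ^ j) := by
      refine ⟨k * l, le_rfl, lt_of_lt_of_le hlog2 ?_⟩
      have h2 : k ^ (N + 1 + 1) = k * (k ^ (N - k * l) * (k * k ^ (k * l))) := by
        have h3 : N + 1 + 1 = 1 + ((N - k * l) + (1 + k * l)) := by omega
        rw [h3]
        simp only [pow_add, pow_one]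
      rw [h2]
      exact Nat.mul_le_mul_left _ (Nat.mul_le_mul_left _ (xy_bern' k l (by omega) hl))
    classical
    obtain ⟨hj1, hj2⟩ := Nat.find_spec hex
    set j := Nat.find hex with hj
    have hjpos : j ≠ 0 := by
      intro h
      rw [h] at hj2
      rw [Nat.sub_zero, pow_zero, mul_one] at hj2
      rw [pow_succ, mul_comm] at hlog1
      omega
    have hprev := Nat.find_min hex (m := j - 1) (by omega)
    have hprev2 : k * (k ^ (N - (j - 1)) * (k + 1) ^ (j - 1)) ≤ x := by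
      by_contra hlt
      exact hprev ⟨by omega, by omega⟩
    refine ⟨k ^ (N - (j - 1)) * (k + 1) ^ (j - 1), hYmem _ (by omega) _, hprev2, ?_⟩
    have h2 : (k + 1) * (k ^ (N - (j - 1)) * (k + 1) ^ (j - 1)) =
        k * (k ^ (N - j) * (k + 1) ^ j) := by
      have h3 : N - (j - 1) = (N - j) + 1 := by omega
      have h4 : (k + 1) ^ j = (k + 1) ^ (j - 1) * (k + 1) := by
        rw [← pow_succ]; congr 1; omega
      rw [h3, h4, pow_succ]
      ring
    rw [h2]; exact hj2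
  have hfin := Y_lemma k M (k ^ M) Y hk (Nat.pow_pos hk0) le_rfl hYcov hYstep
  intro v hv hbig
  have hvk : k * (v / k) + v % k = v := Nat.div_add_mod v k
  have hMk : k + n0 + k * l + 1 = k + M := by omega
  rw [hMk] at hbig
  have hy : v / k ∈ Y := by
    apply hfin
    rw [Nat.le_div_iff_mul_le hk0]
    refine le_trans ?_ hbig
    calc (k + 3) ^ (2 * (k + M)) * k ^ M * k = (k + 3) ^ (2 * (k + M)) * k ^ (M + 1) := by
          rw [pow_succ]; ring
      _ ≤ (k + 3) ^ (2 * (k + M)) * (k + 3) ^ (k + M) :=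
          Nat.mul_le_mul_left _ ((Nat.pow_le_pow_left (by omega) _).trans
            (Nat.pow_le_pow_right (by omega) (by omega)))
      _ = (k + 3) ^ (3 * (k + M)) := by rw [← pow_add]; congr 1; ring
  have hv01 : v % k = 0 ∨ v % k = 1 := by omega
  rcases hv01 with h | h
  · have : v = k * (v / k) := by omega
    rw [this]; exact hy.2.1
  · have : v = k * (v / k) + 1 := by omega
    rw [this]; exact hy.2.2

end Pool.Agent.WB
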