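import Pool.Agent.WB.TT
import Pool.Agent.WB.G2
import Pool.Agent.WB.G3
import Pool.Agent.WB.G6
import Pool.Agent.WB.G7
import Pool.Agent.WB.AG
import Pool.Agent.WB.XY

set_option autoImplicit false

namespace Pool.Agent.WB

theorem theta_succ (k n : ℕ) : theta k (n + 1) = theta k n + k ^ n := by
  unfold theta
  rw [Finset.sum_range_succ]

theorem theta_succ' (k n : ℕ) : theta k (n + 1) = k * theta k n + 1 := by
  induction n with
  | zero => simp [theta]
  | succ n ih =>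
    have h1 := theta_succ k (n + 1)
    have h2 := theta_succ k n
    have h3 : k * theta k (n + 1) = k * theta k n + k ^ n * k := by rw [h2]; ring
    rw [h1, h3, ih, pow_succ]
    ring

theorem theta_pow {k : ℕ} (hk : 1 ≤ k) (n : ℕ) : (k - 1) * theta k n + 1 = k ^ n := by
  obtain ⟨j, rfl⟩ : ∃ j, k = j + 1 := ⟨k - 1, by omega⟩
  induction n with
  | zero => simp [theta]
  | succ n ih =>
    rw [theta_succ, pow_succ]
    simp only [Nat.add_sub_cancel] at ih ⊢
    rw [Nat.mul_add, ← ih]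
    ring

theorem theta_pos {k n : ℕ} (hn : 1 ≤ n) : 1 ≤ theta k n := by
  obtain ⟨j, rfl⟩ : ∃ j, n = j + 1 := ⟨n - 1, by omega⟩
  rw [theta_succ']
  omega

theorem TD_big' {k l t : ℕ} (hl : k + 1 ≤ 2 ^ l) (hl1 : 1 ≤ l) (ht : 2 ^ (100 * l ^ 2) ≤ t) :
    TD (k + 1) t := TD_mono (TD_big l hl1 t ht) hl

theorem X_theta {k m : ℕ} (hk : IsPrimePow k) (h1 : TD k m) (n : ℕ) :
    GD k ((k - 1) * m) (theta k n) := G1 (AG hk n) h1

theorem X_closed {k l m : ℕ} (hk : IsPrimePow k) (hl : k + 1 ≤ 2 ^ l) (hl1 : 1 ≤ l)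
    (h1 : TD k m) (h2 : TD k ((k - 1) * m)) {t u : ℕ} (ht : GD k ((k - 1) * m) t)
    (htT : 2 ^ (100 * l ^ 2) ≤ t) (hu : GD k ((k - 1) * m) u) (hut : u ≤ t) :
    GD k ((k - 1) * m) (k * t + u) := by
  refine G2 (G7 (TD_big' hl hl1 htT) hut) ?_
  intro κ hκ
  simp only [Set.mem_insert_iff, Set.mem_singleton_iff] at hκ
  rcases hκ with h | h | h | h
  · rw [h]; exact h2
  · have h3 := X_theta hk h1 2
    have e : theta k 2 = k + 1 := by rw [theta_succ', theta_succ']; simp [theta]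
    rw [h, ← e]; exact h3
  · rw [h]; exact ht
  · rw [h]; exact hu

theorem Xm_big {k l n0 m : ℕ} (hk : IsPrimePow k) (hl : k + 1 ≤ 2 ^ l) (hl1 : 1 ≤ l)
    (hT : 2 ^ (100 * l ^ 2) ≤ k ^ n0) (h1 : TD k m) (h2 : TD k ((k - 1) * m)) (v : ℕ)
    (hv : v % k ≤ 1) (hv2 : (k + 3) ^ (3 * (k + n0 + k * l + 1)) ≤ v) :
    GD k ((k - 1) * m) v := by
  have hk2 : 2 ≤ k := hk.two_le
  refine X_big k l n0 (2 ^ (100 * l ^ 2)) {v | GD k ((k - 1) * m) v} hk2 (by omega) hT
    (GD_v0 _ _) (GD_v1 _ _) ?_ ?_ v hv hv2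
  · intro n
    have h3 := G6 (by omega) (AG hk n)
    rw [theta_pow (by omega)] at h3
    refine G2 h3 ?_
    intro κ hκ
    rw [Set.mem_singleton_iff] at hκ
    rw [hκ]; exact h2
  · intro t ht htT u hu hut
    exact X_closed hk hl hl1 h1 h2 ht htT hu hut

theorem exists_modEq_Ico {m : ℕ} (hm : 0 < m) (c x : ℕ) :
    ∃ b, x ≤ b ∧ b < x + m ∧ b ≡ c [MOD m] := by
  have hx : x ≤ c + m * x := by nlinarith
  refine ⟨x + (c + m * x - x) % m, Nat.le_add_right _ _,
    Nat.add_lt_add_left (Nat.mod_lt _ hm) _, ?_⟩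
  have h1 : x + (c + m * x - x) % m ≡ x + (c + m * x - x) [MOD m] :=
    Nat.ModEq.add_left _ (Nat.mod_modEq _ _)
  rw [Nat.add_sub_cancel' hx] at h1
  refine h1.trans ?_
  simp [Nat.ModEq]

/-- solving `a * b ≡ r` with `b` in a given interval. -/
theorem exists_modEq {a m : ℕ} (hm : 0 < m) (ha : Nat.Coprime a m) (r x : ℕ) :
    ∃ b, x ≤ b ∧ b < x + m ∧ a * b ≡ r [MOD m] := by
  haveI : NeZero m := ⟨hm.ne'⟩
  obtain ⟨b, h1, h2, h3⟩ := exists_modEq_Ico hm
    (((ZMod.unitOfCoprime a ha)⁻¹ : (ZMod m)ˣ) * (r : ZMod m) : ZMod m).val x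
  refine ⟨b, h1, h2, ?_⟩
  refine (Nat.ModEq.mul_left a h3).trans ?_
  rw [← ZMod.natCast_eq_natCast_iff]
  push_cast
  rw [ZMod.natCast_zmod_val, ← mul_assoc]
  have h4 : (a : ZMod m) * (((ZMod.unitOfCoprime a ha)⁻¹ : (ZMod m)ˣ) : ZMod m) = 1 := by
    have := Units.mul_inv (ZMod.unitOfCoprime a ha)
    simpa using this
  rw [h4, one_mul]

/-- The final step: all large admissible `r` are in `R`. -/
theorem R_big {k l n0 n L V0 : ℕ} (hk : IsPrimePow k) (hl : k + 1 ≤ 2 ^ l) (hl1 : 1 ≤ l)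
    (hT : 2 ^ (100 * l ^ 2) ≤ k ^ n0) (hn1 : 2 ^ (100 * l ^ 2) ≤ theta k n)
    (hL : theta k (n + 1) ^ 2 ≤ 2 ^ L) (hL1 : 1 ≤ L)
    (hV0 : V0 = (k + 3) ^ (3 * (k + n0 + k * l + 1)))
    (M : ℕ) (hM : M = k * theta k n * (theta k (n + 1) + 1) * theta k n)
    (r : ℕ) (hr : r % k ≤ 1)
    (hr2 : theta k (n + 1) * (V0 + k * M) +
      M * (V0 + (k + 1) * (V0 + k * M) + 2 ^ (100 * L ^ 2)) ≤ r) :
    GD k (k - 1) r := by
  have hk2 : 2 ≤ k := hk.two_le
  set N := theta k n with hN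
  set N' := theta k (n + 1) with hN'
  have hNN : N' = k * N + 1 := theta_succ' k n
  have hNpos : 1 ≤ N := le_trans Nat.one_le_two_pow hn1
  have hN'pos : 1 ≤ N' := by omega
  have hNN' : N ≤ N' := by rw [hNN]; nlinarith
  -- TDs
  have hTDk : ∀ t, 2 ^ (100 * l ^ 2) ≤ t → TD k t := fun t ht =>
    TD_mono (TD_big' hl hl1 ht) (by omega)
  have hge : ∀ t, N ≤ t → N ≤ (k - 1) * t := fun t ht => by
    obtain ⟨j, rfl⟩ : ∃ j, k = j + 2 := ⟨k - 2, by omega⟩
    have : (j + 2 - 1) = j + 1 := rfl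
    rw [this]; nlinarith
  have hTN : TD k N := hTDk N hn1
  have hTN2 : TD k ((k - 1) * N) := hTDk _ (hn1.trans (hge N le_rfl))
  have hTN' : TD k N' := hTDk N' (hn1.trans hNN')
  have hTN2' : TD k ((k - 1) * N') := hTDk _ (hn1.trans (hge N' hNN'))
  have hRN : GD k (k - 1) N := AG hk n
  have hRN' : GD k (k - 1) N' := AG hk (n + 1)
  -- s and s+1
  have hs : GD k (k - 1) (N * (k * N' + k)) := by
    refine G3 ?_ hRN
    refine X_closed hk hl hl1 hTN hTN2 (X_theta hk hTN (n + 1)) (hn1.trans hNN') ?_ ?_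
    · exact hTN2
    · rw [hNN]; nlinarith
  have hs1 : GD k (k - 1) (N' * N') := G3 (X_theta hk hTN' (n + 1)) hRN'
  have hMpos : 0 < M := by rw [hM]; positivity
  have hkM : 0 < k * M := by positivity
  have hcop : Nat.Coprime N' (k * M) := by
    have c1 : Nat.Coprime N' k := by
      rw [hNN]; simp
    have c2 : Nat.Coprime N' N := by
      rw [hNN]; simp
    have c3 : Nat.Coprime N' (N' + 1) := by simp
    rw [hM]
    exact c1.mul_right ((((c1.mul_right c2).mul_right c3)).mul_right c2)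
  obtain ⟨b, hb1, hb2, hb3⟩ := exists_modEq hkM hcop r V0
  have hbr : N' * b ≤ r := by
    refine le_trans ?_ hr2
    have : N' * b ≤ N' * (V0 + k * M) := Nat.mul_le_mul_left _ hb2.le
    omega
  obtain ⟨c, hc⟩ : k * M ∣ r - N' * b := (Nat.modEq_iff_dvd' hbr).1 hb3
  have hr' : r = M * (k * c) + N' * b := by
    have : r = (r - N' * b) + N' * b := by omega
    rw [this, hc]; ring
  -- b admissible
  have hbk : b % k ≤ 1 := by
    have h1 : b % k = r % k := by
      rw [hr', hNN]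
      have : M * (k * c) + (k * N + 1) * b = b + k * (M * c + N * b) := by ring
      rw [this, Nat.add_mul_mod_self_left]
    rw [h1]; exact hr
  have hac : V0 + (k + 1) * (V0 + k * M) + 2 ^ (100 * L ^ 2) ≤ k * c := by
    have h1 : N' * b ≤ N' * (V0 + k * M) := Nat.mul_le_mul_left _ hb2.le
    have h2 : M * (V0 + (k + 1) * (V0 + k * M) + 2 ^ (100 * L ^ 2)) ≤ M * (k * c) := by
      omega
    exact Nat.le_of_mul_le_mul_left h2 hMpos
  have hac1 : V0 ≤ k * c := le_trans (by rw [add_assoc]; exact Nat.le_add_right _ _) hac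
  have hac2 : (k + 1) * (V0 + k * M) ≤ k * c :=
    le_trans (by rw [add_right_comm]; exact Nat.le_add_left _ _) hac
  have hac3 : 2 ^ (100 * L ^ 2) ≤ k * c := le_trans (Nat.le_add_left _ _) hac
  have ht : GD k (k - 1) (N * (k * c)) := by
    refine G3 ?_ hRN
    refine Xm_big hk hl hl1 hT hTN hTN2 _ ?_ ?_
    · simp
    · rw [← hV0]; exact hac1
  have hu : GD k (k - 1) (N' * b) := by
    refine G3 ?_ hRN'
    exact Xm_big hk hl hl1 hT hTN' hTN2' _ hbk (by rw [← hV0]; exact hb1)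
  have hut : N' * b ≤ N * (k * c) := by
    have h1 : N' ≤ N * (k + 1) := by rw [hNN]; nlinarith
    have h2 : (k + 1) * b ≤ k * c := by
      have : (k + 1) * b ≤ (k + 1) * (V0 + k * M) := Nat.mul_le_mul_left _ hb2.le
      exact this.trans hac2
    calc N' * b ≤ N * (k + 1) * b := Nat.mul_le_mul_right _ h1
      _ = N * ((k + 1) * b) := by ring
      _ ≤ N * (k * c) := Nat.mul_le_mul_left _ h2
  have hTDs : TD (N * (k * N' + k) + 1) (N * (k * c)) := by
    have e : N * (k * N' + k) + 1 = N' ^ 2 := by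
      rw [hNN]; ring
    refine TD_mono (TD_big L hL1 _ ?_) (by rw [e]; exact hL)
    calc 2 ^ (100 * L ^ 2) ≤ k * c := hac3
      _ ≤ N * (k * c) := Nat.le_mul_of_pos_left _ hNpos
  have hfin := G7 hTDs hut
  have e2 : N * (k * N' + k) * (N * (k * c)) + N' * b = r := by
    rw [hr', hM]; ring
  rw [e2] at hfin
  refine G2 hfin ?_
  intro κ hκ
  simp only [Set.mem_insert_iff, Set.mem_singleton_iff] at hκ
  rcases hκ with h | h | h | h
  · rw [h]; exact hs
  · have e : N * (k * N' + k) + 1 = N' * N' := by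
      rw [hNN]; ring
    rw [h, e]; exact hs1
  · rw [h]; exact ht
  · rw [h]; exact hu

end Pool.Agent.WB
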