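import Pool.Agent.WB.AS1

set_option autoImplicit false

namespace Pool.Agent.WB

theorem theta_lt (k n : ℕ) (hk : 2 ≤ k) : theta k n < k ^ n := by
  have h := theta_pow (k := k) (by omega) n
  have : theta k n ≤ (k - 1) * theta k n := Nat.le_mul_of_pos_left _ (by omega)
  omega

theorem pow_le_two {a b c : ℕ} (h : b ≤ c) (ha : a ≤ 2 ^ b) : a ≤ 2 ^ c :=
  ha.trans (Nat.pow_le_pow_right (by norm_num) h)

/-- `l^2 ≤ (9/4) k` for `k < 2^l ≤ 2k`. -/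
theorem sq_le_of_size {k l : ℕ} (hl : 2 ≤ l) (h : 2 ^ (l - 1) ≤ k) : 4 * l ^ 2 ≤ 9 * k := by
  have key : ∀ m : ℕ, 4 * (m + 2) ^ 2 ≤ 9 * 2 ^ (m + 1) := by
    intro m
    rcases Nat.lt_or_ge m 2 with h | h
    · interval_cases m <;> norm_num
    · induction m, h using Nat.le_induction with
      | base => norm_num
      | succ m hm ih =>
        rw [pow_succ 2 (m + 1)]
        nlinarith
  obtain ⟨m, rfl⟩ : ∃ m, l = m + 2 := ⟨l - 2, by omega⟩
  have := key m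
  simp only [Nat.add_sub_cancel, show m + 2 - 1 = m + 1 from rfl] at h
  omega

theorem R_bound {k l : ℕ} (hk : IsPrimePow k) (hk3 : 3 ≤ k) (hl : 2 ≤ l) (h1 : 2 ^ (l - 1) ≤ k)
    (h2 : k < 2 ^ l) (r : ℕ) (hr : r % k ≤ 1) (hr2 : 2 ^ (36400000 * (k * l ^ 2)) ≤ r) :
    GD k (k - 1) r := by
  set n0 := 200 * l with hn0
  have hT : 2 ^ (100 * l ^ 2) ≤ k ^ n0 := by
    calc 2 ^ (100 * l ^ 2) ≤ 2 ^ ((l - 1) * n0) := by
          apply Nat.pow_le_pow_right (by norm_num)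
          obtain ⟨j, rfl⟩ : ∃ j, l = j + 2 := ⟨l - 2, by omega⟩
          rw [hn0, show j + 2 - 1 = j + 1 from rfl]
          nlinarith
      _ = (2 ^ (l - 1)) ^ n0 := by rw [pow_mul]
      _ ≤ k ^ n0 := Nat.pow_le_pow_left h1 _
  have hll : l ≤ l ^ 2 := by nlinarith
  have hll2 : 2 * l ≤ l ^ 2 := by nlinarith
  set Q := k * l ^ 2 with hQ
  have hQl : 3 * l ^ 2 ≤ Q := by rw [hQ]; nlinarith
  have hQ12 : 12 ≤ Q := by nlinarith
  have hN1 : 2 ^ (100 * l ^ 2) ≤ theta k (n0 + 1) := by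
    rw [theta_succ]; omega
  have hN' : theta k (n0 + 1 + 1) ≤ 2 ^ (201 * l ^ 2) := by
    refine (theta_lt k _ (by omega)).le.trans ?_
    calc k ^ (n0 + 1 + 1) ≤ (2 ^ l) ^ (n0 + 1 + 1) := Nat.pow_le_pow_left h2.le _
      _ = 2 ^ (l * (n0 + 1 + 1)) := by rw [pow_mul]
      _ ≤ 2 ^ (201 * l ^ 2) := by
          apply Nat.pow_le_pow_right (by norm_num)
          rw [hn0]; nlinarith
  set N := theta k (n0 + 1) with hN
  set N' := theta k (n0 + 1 + 1) with hN'd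
  have hNN : N' = k * N + 1 := theta_succ' k _
  have hL : N' ^ 2 ≤ 2 ^ (402 * l ^ 2) := by
    calc N' ^ 2 ≤ (2 ^ (201 * l ^ 2)) ^ 2 := Nat.pow_le_pow_left hN' _
      _ = 2 ^ (402 * l ^ 2) := by rw [← pow_mul]; congr 1; ring
  set V0 := (k + 3) ^ (3 * (k + n0 + k * l + 1)) with hV0
  have hV0b : V0 ≤ 2 ^ (311 * Q) := by
    have hk3' : k + 3 ≤ 2 ^ (l + 1) := by rw [pow_succ]; omega
    calc V0 ≤ (2 ^ (l + 1)) ^ (3 * (k + n0 + k * l + 1)) := Nat.pow_le_pow_left hk3' _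
      _ = 2 ^ ((l + 1) * (3 * (k + n0 + k * l + 1))) := by rw [← pow_mul]
      _ ≤ 2 ^ (311 * Q) := by
          apply Nat.pow_le_pow_right (by norm_num)
          -- (l+1) * 3 * (k + 200 l + k l + 1) ≤ 311 k l^2
          rw [hn0, hQ]
          have e1 : 2 * (l + 1) ≤ 3 * l := by omega
          have e2 : 6 * (k + 200 * l + k * l + 1) ≤ 410 * (k * l) := by nlinarith
          have e3 := Nat.mul_le_mul e1 e2
          nlinarith
  obtain ⟨M, hM⟩ : ∃ M, M = k * N * (N' + 1) * N := ⟨_, rfl⟩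
  have hMb : M ≤ 2 ^ (202 * Q) := by
    have m1 : k * N ≤ 2 ^ (201 * l ^ 2) := by omega
    have m2 : N' + 1 ≤ 2 ^ (202 * l ^ 2) := by
      have : 2 ^ (201 * l ^ 2) + 1 ≤ 2 ^ (202 * l ^ 2) := by
        have e : 202 * l ^ 2 = 201 * l ^ 2 + l ^ 2 := by ring
        rw [e, pow_add]
        have e1 : 2 ^ 1 ≤ 2 ^ (l ^ 2) := Nat.pow_le_pow_right (by norm_num) (by nlinarith)
        have e2 : 1 ≤ 2 ^ (201 * l ^ 2) := Nat.one_le_two_pow
        nlinarith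
      omega
    have m3 : N ≤ 2 ^ (201 * l ^ 2) := by
      have : N ≤ k * N := Nat.le_mul_of_pos_left _ (by omega)
      omega
    calc M ≤ 2 ^ (201 * l ^ 2) * 2 ^ (202 * l ^ 2) * 2 ^ (201 * l ^ 2) := by
          rw [hM]; exact Nat.mul_le_mul (Nat.mul_le_mul m1 m2) m3
      _ = 2 ^ (604 * l ^ 2) := by rw [← pow_add, ← pow_add]; congr 1; ring
      _ ≤ 2 ^ (202 * Q) := Nat.pow_le_pow_right (by norm_num) (by omega)
  have hkb : k ≤ 2 ^ (Q) := by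
    refine pow_le_two ?_ h2.le
    nlinarith
  have hk1b : k + 1 ≤ 2 ^ Q := by
    refine le_trans (show k + 1 ≤ 2 ^ l by omega) (Nat.pow_le_pow_right (by norm_num) (by nlinarith))
  have hkM : k * M ≤ 2 ^ (203 * Q) := by
    calc k * M ≤ 2 ^ Q * 2 ^ (202 * Q) := Nat.mul_le_mul hkb hMb
      _ = 2 ^ (203 * Q) := by rw [← pow_add]; congr 1; ring
  have two_le : ∀ a b c : ℕ, a ≤ 2 ^ c → b ≤ 2 ^ c → a + b ≤ 2 ^ (c + 1) := by
    intro a b c ha hb
    rw [pow_succ]; omega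
  have hVM : V0 + k * M ≤ 2 ^ (312 * Q) := by
    refine pow_le_two ?_ (two_le _ _ (311 * Q) hV0b (pow_le_two (by omega) hkM))
    omega
  have hk1VM : (k + 1) * (V0 + k * M) ≤ 2 ^ (313 * Q) := by
    calc (k + 1) * (V0 + k * M) ≤ 2 ^ Q * 2 ^ (312 * Q) := Nat.mul_le_mul hk1b hVM
      _ = 2 ^ (313 * Q) := by rw [← pow_add]; congr 1; ring
  have hLb : 2 ^ (100 * (402 * l ^ 2) ^ 2) ≤ 2 ^ (36360900 * Q) := by
    apply Nat.pow_le_pow_right (by norm_num)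
    have h9 := sq_le_of_size hl h1
    have e : 100 * (402 * l ^ 2) ^ 2 = 4040100 * (4 * l ^ 2) * l ^ 2 := by ring
    rw [e, hQ]
    calc 4040100 * (4 * l ^ 2) * l ^ 2 ≤ 4040100 * (9 * k) * l ^ 2 :=
          Nat.mul_le_mul_right _ (Nat.mul_le_mul_left _ h9)
      _ = 36360900 * (k * l ^ 2) := by ring
  have hsum : V0 + (k + 1) * (V0 + k * M) + 2 ^ (100 * (402 * l ^ 2) ^ 2) ≤
      2 ^ (36360901 * Q) := by
    have a1 : V0 + (k + 1) * (V0 + k * M) ≤ 2 ^ (36360900 * Q) :=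
      pow_le_two (b := 313 * Q + 1) (by omega)
        (two_le _ _ _ (pow_le_two (by omega) hV0b) hk1VM)
    exact pow_le_two (b := 36360900 * Q + 1) (by omega) (two_le _ _ _ a1 hLb)
  have hfin : N' * (V0 + k * M) +
      M * (V0 + (k + 1) * (V0 + k * M) + 2 ^ (100 * (402 * l ^ 2) ^ 2)) ≤
      2 ^ (36400000 * Q) := by
    have b1 : N' * (V0 + k * M) ≤ 2 ^ (36361103 * Q) := by
      calc N' * (V0 + k * M) ≤ 2 ^ (201 * l ^ 2) * 2 ^ (312 * Q) := Nat.mul_le_mul hN' hVM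
        _ = 2 ^ (201 * l ^ 2 + 312 * Q) := by rw [← pow_add]
        _ ≤ _ := Nat.pow_le_pow_right (by norm_num) (by omega)
    have b2 : M * (V0 + (k + 1) * (V0 + k * M) + 2 ^ (100 * (402 * l ^ 2) ^ 2)) ≤
        2 ^ (36361103 * Q) := by
      calc _ ≤ 2 ^ (202 * Q) * 2 ^ (36360901 * Q) := Nat.mul_le_mul hMb hsum
        _ = 2 ^ (36361103 * Q) := by rw [← pow_add]; congr 1; ring
    exact pow_le_two (b := 36361103 * Q + 1) (by omega) (two_le _ _ _ b1 b2)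
  exact R_big (V0 := V0) (L := 402 * l ^ 2) hk (by omega) (by omega) hT hN1 hL (by nlinarith) hV0
    M hM r hr (hfin.trans hr2)

end Pool.Agent.WB
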