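import Pool.Agent.WB.Defs

set_option autoImplicit false

namespace Pool.Agent.WB

theorem CDec.mono {V : Type} {S S' : Set ℕ} {Γ : SimpleGraph V} (h : S ⊆ S')
    (hd : CDec S Γ) : CDec S' Γ := by
  obtain ⟨𝓑, h1, h2⟩ := hd
  exact ⟨𝓑, fun B hB => ⟨h (h1 B hB).1, (h1 B hB).2⟩, h2⟩

/-- Transport along an injective map of vertices which is onto the edges. -/
theorem CDec.map {V W : Type} {S : Set ℕ} {Γ : SimpleGraph V} {H : SimpleGraph W}
    (f : V → W) (hf : Function.Injective f)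
    (h1 : ∀ x y, Γ.Adj x y → H.Adj (f x) (f y))
    (h2 : ∀ a b, H.Adj a b → ∃ x y, Γ.Adj x y ∧ f x = a ∧ f y = b)
    (hd : CDec S Γ) : CDec S H := by
  classical
  obtain ⟨𝓑, hB, hU⟩ := hd
  have hmem : ∀ (B : Finset V) (x : V), f x ∈ B.map ⟨f, hf⟩ ↔ x ∈ B := by
    intro B x
    constructor
    · intro h
      rw [Finset.mem_map] at h
      obtain ⟨y, hy, hyx⟩ := h
      have : y = x := hf hyx
      rwa [← this]
    · intro h
      exact Finset.mem_map_of_mem _ h
  refine ⟨{C | ∃ B ∈ 𝓑, B.map ⟨f, hf⟩ = C}, ?_, ?_⟩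
  · rintro C ⟨B, hBm, rfl⟩
    refine ⟨?_, ?_⟩
    · rw [Finset.card_map]; exact (hB B hBm).1
    · intro a ha b hb hab
      rw [Finset.mem_coe, Finset.mem_map] at ha hb
      obtain ⟨x, hx, rfl⟩ := ha
      obtain ⟨y, hy, rfl⟩ := hb
      apply h1
      apply (hB B hBm).2 (Finset.mem_coe.2 hx) (Finset.mem_coe.2 hy)
      rintro rfl
      exact hab rfl
  · intro a b hab
    obtain ⟨x, y, hxy, rfl, rfl⟩ := h2 a b hab
    obtain ⟨B, ⟨hBm, hx, hy⟩, huniq⟩ := hU x y hxy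
    refine ⟨B.map ⟨f, hf⟩, ⟨⟨B, hBm, rfl⟩, (hmem B x).2 hx, (hmem B y).2 hy⟩, ?_⟩
    rintro C ⟨⟨B', hB', rfl⟩, hx', hy'⟩
    rw [huniq B' ⟨hB', (hmem B' x).1 hx', (hmem B' y).1 hy'⟩]

/-- Gluing: the edges of `Γ` are partitioned into the edge sets of the `H j`. -/
theorem CDec.glue {V J : Type} {S : Set ℕ} {Γ : SimpleGraph V} (H : J → SimpleGraph V)
    (h1 : ∀ j x y, (H j).Adj x y → Γ.Adj x y)
    (h2 : ∀ x y, Γ.Adj x y → ∃! j, (H j).Adj x y)
    (hd : ∀ j, CDec S (H j)) : CDec S Γ := by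
  choose 𝓑 hB hU using hd
  refine ⟨{B | ∃ j, B ∈ 𝓑 j}, ?_, ?_⟩
  · rintro B ⟨j, hBj⟩
    refine ⟨(hB j B hBj).1, fun x hx y hy hxy => h1 j x y ((hB j B hBj).2 hx hy hxy)⟩
  · intro x y hxy
    obtain ⟨j, hj, hjU⟩ := h2 x y hxy
    obtain ⟨B, ⟨hBm, hx, hy⟩, huniq⟩ := hU j x y hj
    refine ⟨B, ⟨⟨j, hBm⟩, hx, hy⟩, ?_⟩
    rintro B' ⟨⟨j', hBj'⟩, hx', hy'⟩
    have hadj : (H j').Adj x y :=
      (hB j' B' hBj').2 (Finset.mem_coe.2 hx') (Finset.mem_coe.2 hy') hxy.ne
    have hjj : j' = j := hjU j' hadj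
    subst hjj
    exact huniq B' ⟨hBj', hx', hy'⟩

/-- A graph without edges. -/
theorem CDec.bot {V : Type} {S : Set ℕ} {Γ : SimpleGraph V} (h : ∀ x y, ¬ Γ.Adj x y) :
    CDec S Γ :=
  ⟨∅, fun B hB => absurd hB (Set.notMem_empty B), fun x y hxy => absurd hxy (h x y)⟩

/-- One clique. -/
theorem CDec.clique {V : Type} {S : Set ℕ} {Γ : SimpleGraph V} (B : Finset V)
    (hS : B.card ∈ S) (hΓ : ∀ x y, Γ.Adj x y ↔ x ∈ B ∧ y ∈ B ∧ x ≠ y) : CDec S Γ := by
  refine ⟨{B}, ?_, ?_⟩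
  · rintro C rfl
    exact ⟨hS, fun x hx y hy hxy => (hΓ x y).2 ⟨hx, hy, hxy⟩⟩
  · intro x y hxy
    have h := (hΓ x y).1 hxy
    exact ⟨B, ⟨rfl, h.1, h.2.1⟩, fun C hC => hC.1⟩

/-- Union of two edge-disjoint graphs. -/
theorem CDec.sup {V : Type} {S : Set ℕ} {Γ Γ₁ Γ₂ : SimpleGraph V}
    (h : ∀ x y, Γ.Adj x y ↔ Γ₁.Adj x y ∨ Γ₂.Adj x y)
    (hd : ∀ x y, Γ₁.Adj x y → ¬ Γ₂.Adj x y) (h₁ : CDec S Γ₁) (h₂ : CDec S Γ₂) : CDec S Γ := by
  apply CDec.glue (fun b : Bool => if b then Γ₁ else Γ₂)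
  · intro b x y hb
    cases b with
    | true => exact (h x y).2 (Or.inl (by simpa using hb))
    | false => exact (h x y).2 (Or.inr (by simpa using hb))
  · intro x y hxy
    rcases (h x y).1 hxy with h1 | h2
    · refine ⟨true, by simpa using h1, ?_⟩
      intro b hb
      cases b with
      | true => rfl
      | false => exact absurd (by simpa using hb) (hd x y h1)
    · refine ⟨false, by simpa using h2, ?_⟩
      intro b hb
      cases b with
      | true => exact absurd h2 (hd x y (by simpa using hb))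
      | false => rfl
  · intro b
    cases b with
    | true => simpa using h₁
    | false => simpa using h₂

/-- The same graph up to relabelling of the vertices. -/
theorem CDec.congr {V W : Type} {S : Set ℕ} {Γ : SimpleGraph V} {H : SimpleGraph W}
    (e : V ≃ W) (h : ∀ x y, Γ.Adj x y ↔ H.Adj (e x) (e y)) (hd : CDec S Γ) : CDec S H := by
  apply CDec.map e e.injective (fun x y hxy => (h x y).1 hxy) ?_ hd
  intro a b hab
  refine ⟨e.symm a, e.symm b, (h _ _).2 (by simpa using hab), by simp, by simp⟩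

/-- A fibration with `v` fibres of size `w` is `Fin v × Fin w → Fin v`. -/
theorem exists_equiv {v w : ℕ} {V ι : Type} [Finite V] [Finite ι] (g : V → ι)
    (hι : Nat.card ι = v) (hg : ∀ i, Nat.card {x // g x = i} = w) :
    ∃ (e : Fin v × Fin w ≃ V) (e' : Fin v ≃ ι), ∀ x, g (e x) = e' x.1 := by
  have e' : Fin v ≃ ι := (Finite.equivFinOfCardEq hι).symm
  have f : ∀ i, {x // g x = i} ≃ Fin w := fun i => Finite.equivFinOfCardEq (hg i)
  refine ⟨{
    toFun := fun x => ((f (e' x.1)).symm x.2 : V)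
    invFun := fun y => (e'.symm (g y), f (e' (e'.symm (g y))) ⟨y, by simp⟩)
    left_inv := ?_
    right_inv := ?_ }, e', ?_⟩
  · rintro ⟨i, j⟩
    have h1 : g ((f (e' i)).symm j : V) = e' i := ((f (e' i)).symm j).2
    have h2 : e'.symm (g ((f (e' i)).symm j : V)) = i := by rw [h1]; simp
    have key : ∀ (i' : Fin v) (hi' : i' = i) (h : g ((f (e' i)).symm j : V) = e' i'),
        f (e' i') ⟨((f (e' i)).symm j : V), h⟩ = j := by
      rintro i' rfl h
      have : (⟨((f (e' i')).symm j : V), h⟩ : {x // g x = e' i'}) = (f (e' i')).symm j := by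
        apply Subtype.ext; rfl
      rw [this]; simp
    apply Prod.ext
    · exact h2
    · exact key _ h2 _
  · intro y
    simp
  · rintro ⟨i, j⟩
    exact ((f (e' i)).symm j).2

theorem GD.to {k w v : ℕ} (h : GD k w v) {V ι : Type} [Finite V] [Finite ι] (g : V → ι)
    (hι : Nat.card ι = v) (hg : ∀ i, Nat.card {x // g x = i} = w) : CDec {k} (MP g) := by
  obtain ⟨e, e', he⟩ := exists_equiv g hι hg
  refine CDec.congr e ?_ h
  intro x y
  rw [MP_adj, MP_adj, he, he]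
  exact e'.injective.ne_iff.symm

theorem GD.of {k w v : ℕ} {V ι : Type} [Finite V] [Finite ι] (g : V → ι)
    (hι : Nat.card ι = v) (hg : ∀ i, Nat.card {x // g x = i} = w)
    (h : CDec {k} (MP g)) : GD k w v := by
  obtain ⟨e, e', he⟩ := exists_equiv g hι hg
  refine CDec.congr e.symm ?_ h
  intro x y
  obtain ⟨x', rfl⟩ := e.surjective x
  obtain ⟨y', rfl⟩ := e.surjective y
  rw [MP_adj, MP_adj, he, he]
  simp only [Equiv.symm_apply_apply]
  exact e'.injective.ne_iff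

/-- Version for products. -/
theorem GD.prod {k w v : ℕ} (h : GD k w v) {A M : Type} [Finite A] [Finite M]
    (hA : Nat.card A = v) (hM : Nat.card M = w) :
    CDec {k} (MP (Prod.fst : A × M → A)) := by
  refine h.to Prod.fst hA ?_
  intro i
  rw [← hM]
  apply Nat.card_congr
  exact { toFun := fun x => x.1.2
          invFun := fun m => ⟨(i, m), rfl⟩
          left_inv := by rintro ⟨⟨a, m⟩, rfl⟩; rfl
          right_inv := fun m => rfl }

theorem GD.of_prod {k w v : ℕ} {A M : Type} [Finite A] [Finite M]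
    (hA : Nat.card A = v) (hM : Nat.card M = w)
    (h : CDec {k} (MP (Prod.fst : A × M → A))) : GD k w v := by
  refine GD.of Prod.fst hA ?_ h
  intro i
  rw [← hM]
  apply Nat.card_congr
  exact { toFun := fun x => x.1.2
          invFun := fun m => ⟨(i, m), rfl⟩
          left_inv := by rintro ⟨⟨a, m⟩, rfl⟩; rfl
          right_inv := fun m => rfl }

theorem PB.to {S : Set ℕ} {v : ℕ} (h : PB S v) {V : Type} [Finite V] (hV : Nat.card V = v) :
    CDec S (⊤ : SimpleGraph V) := by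
  have e : V ≃ Fin v := Finite.equivFinOfCardEq hV
  refine CDec.congr e.symm ?_ h
  intro x y
  simp

theorem PB.of {S : Set ℕ} {v : ℕ} {V : Type} [Finite V] (hV : Nat.card V = v)
    (h : CDec S (⊤ : SimpleGraph V)) : PB S v := by
  have e : V ≃ Fin v := Finite.equivFinOfCardEq hV
  refine CDec.congr e ?_ h
  intro x y
  simp

end Pool.Agent.WB
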