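import Mathlib

set_option autoImplicit false

/-! # WB: an explicit threshold in Wilson's theorem for prime power block size

Definitions.  Everything is in universe `Type`. -/

namespace Pool.Agent.WB

/-- `CDec S Γ`: the edges of `Γ` are partitioned into cliques whose sizes lie in `S`. -/
def CDec {V : Type} (S : Set ℕ) (Γ : SimpleGraph V) : Prop :=
  ∃ 𝓑 : Set (Finset V), (∀ B ∈ 𝓑, B.card ∈ S ∧ Γ.IsClique (B : Set V)) ∧
    ∀ x y, Γ.Adj x y → ∃! B : Finset V, B ∈ 𝓑 ∧ x ∈ B ∧ y ∈ B

/-- The complete multipartite graph whose parts are the fibres of `g`. -/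
def MP {V ι : Type} (g : V → ι) : SimpleGraph V := (⊤ : SimpleGraph ι).comap g

@[simp] theorem MP_adj {V ι : Type} (g : V → ι) (x y : V) : (MP g).Adj x y ↔ g x ≠ g y := by
  simp [MP]

/-- A group divisible design with `v` groups of size `w` and all blocks of size `k`. -/
def GD (k w v : ℕ) : Prop := CDec {k} (MP (Prod.fst : Fin v × Fin w → Fin v))

/-- A transversal design: `s` groups of size `t`, blocks of size `s`. -/
def TD (s t : ℕ) : Prop := GD s t s

/-- A pairwise balanced design on `v` points with block sizes in `S`. -/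
def PB (S : Set ℕ) (v : ℕ) : Prop := CDec S (⊤ : SimpleGraph (Fin v))

/-- `1 + k + ... + k^(n-1)`. -/
def theta (k n : ℕ) : ℕ := ∑ i ∈ Finset.range n, k ^ i

end Pool.Agent.WB
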