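import Pool.Agent.WB.Basic

set_option autoImplicit false

namespace Pool.Agent.WB

/-- Criterion: the blocks are graphs of functions. -/
theorem CDec.of_functions {A M P : Type} [Fintype A] (f : P → A → M)
    (hf : ∀ o₁ o₂ : A, o₁ ≠ o₂ → ∀ y₁ y₂ : M, ∃! p, f p o₁ = y₁ ∧ f p o₂ = y₂) :
    CDec {Fintype.card A} (MP (Prod.fst : A × M → A)) := by
  classical
  have hinj : ∀ p, Function.Injective (fun o : A => ((o, f p o) : A × M)) := by
    intro p x y hxy
    exact congrArg Prod.fst hxy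
  have hmem : ∀ (p : P) (x : A × M),
      x ∈ Finset.univ.map ⟨fun o : A => ((o, f p o) : A × M), hinj p⟩ ↔ f p x.1 = x.2 := by
    intro p x
    rw [Finset.mem_map]
    constructor
    · rintro ⟨o, -, rfl⟩
      rfl
    · intro h
      exact ⟨x.1, Finset.mem_univ _, Prod.ext rfl h⟩
  refine ⟨Set.range fun p => Finset.univ.map ⟨fun o : A => ((o, f p o) : A × M), hinj p⟩,
    ?_, ?_⟩
  · rintro B ⟨p, rfl⟩
    refine ⟨?_, ?_⟩
    · simp
    · intro x hx y hy hxy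
      rw [Finset.mem_coe, hmem] at hx hy
      rw [MP_adj]
      intro h
      apply hxy
      refine Prod.ext h ?_
      rw [← hx, ← hy, h]
  · intro x y hxy
    rw [MP_adj] at hxy
    obtain ⟨p, ⟨hx, hy⟩, hU⟩ := hf x.1 y.1 hxy x.2 y.2
    refine ⟨_, ⟨⟨p, rfl⟩, (hmem p x).2 hx, (hmem p y).2 hy⟩, ?_⟩
    rintro B ⟨⟨p', rfl⟩, hx', hy'⟩
    have := hU p' ⟨(hmem p' x).1 hx', (hmem p' y).1 hy'⟩
    rw [this]

theorem CDec.of_field (F : Type) [Field F] [Fintype F] :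
    CDec {Fintype.card (Option F)} (MP (Prod.fst : Option F × F → Option F)) := by
  classical
  apply CDec.of_functions (P := F × F)
    (fun p o => match o with
      | none => p.1
      | some x => p.1 * x + p.2)
  intro o₁ o₂ ho y₁ y₂
  rcases o₁ with _ | x₁ <;> rcases o₂ with _ | x₂
  · exact absurd rfl ho
  · refine ⟨(y₁, y₂ - y₁ * x₂), ⟨rfl, ?_⟩, ?_⟩
    · show y₁ * x₂ + (y₂ - y₁ * x₂) = y₂
      ring
    · rintro ⟨a, b⟩ ⟨h1, h2⟩
      simp only at h1 h2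
      subst h1
      refine Prod.ext rfl ?_
      simp only
      rw [← h2]; ring
  · refine ⟨(y₂, y₁ - y₂ * x₁), ⟨?_, rfl⟩, ?_⟩
    · show y₂ * x₁ + (y₁ - y₂ * x₁) = y₁
      ring
    · rintro ⟨a, b⟩ ⟨h1, h2⟩
      simp only at h1 h2
      subst h2
      refine Prod.ext rfl ?_
      simp only
      rw [← h1]; ring
  · have hx : x₁ - x₂ ≠ 0 := by
      intro h
      apply ho
      rw [sub_eq_zero.1 h]
    refine ⟨((y₁ - y₂) / (x₁ - x₂), y₁ - (y₁ - y₂) / (x₁ - x₂) * x₁), ⟨?_, ?_⟩, ?_⟩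
    · show (y₁ - y₂) / (x₁ - x₂) * x₁ + (y₁ - (y₁ - y₂) / (x₁ - x₂) * x₁) = y₁
      ring
    · show (y₁ - y₂) / (x₁ - x₂) * x₂ + (y₁ - (y₁ - y₂) / (x₁ - x₂) * x₁) = y₂
      field_simp
      ring
    · rintro ⟨a, b⟩ ⟨h1, h2⟩
      simp only at h1 h2
      have ha : a = (y₁ - y₂) / (x₁ - x₂) := by
        rw [eq_div_iff hx, ← h1, ← h2]; ring
      refine Prod.ext ha ?_
      simp only
      rw [← ha, ← h1]; ring

theorem TD_field {q : ℕ} (hq : IsPrimePow q) : TD (q + 1) q := by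
  have hne : Nonempty (Fin q) := ⟨⟨0, hq.pos⟩⟩
  obtain ⟨hF⟩ : Nonempty (Field (Fin q)) := by
    rw [Fintype.nonempty_field_iff]
    simpa using hq
  have main := @CDec.of_field (Fin q) hF _
  rw [Fintype.card_option, Fintype.card_fin] at main
  exact GD.of_prod (by simp) (by simp) main

end Pool.Agent.WB
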