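import Pool.Agent.WB.Basic

set_option autoImplicit false

/-! Module G1: every point of a group divisible design is replaced by `m` points. -/

namespace Pool.Agent.WB

/-- The graph which a block `B` becomes if every point is replaced by the points of `M`. -/
def infl {P : Type} (M : Type) (B : Finset P) : SimpleGraph (P × M) where
  Adj x y := x.1 ∈ B ∧ y.1 ∈ B ∧ x.1 ≠ y.1
  symm := ⟨fun _ _ h => ⟨h.2.1, h.1, h.2.2.symm⟩⟩
  loopless := ⟨fun _ h => h.2.2 rfl⟩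

theorem infl_cdec {P M : Type} [Finite M] (B : Finset P) {k m : ℕ} (h : GD k m B.card)
    (hM : Nat.card M = m) : CDec {k} (infl M B) := by
  have h1 : CDec {k} (MP (Prod.fst : {x // x ∈ B} × M → {x // x ∈ B})) :=
    h.prod (by simp) hM
  refine CDec.map (fun x => ((x.1 : P), x.2)) ?_ ?_ ?_ h1
  · rintro ⟨x, i⟩ ⟨y, j⟩ hxy
    simp only [Prod.mk.injEq] at hxy
    exact Prod.ext (Subtype.ext hxy.1) hxy.2
  · rintro ⟨x, i⟩ ⟨y, j⟩ hxy
    rw [MP_adj] at hxy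
    exact ⟨x.2, y.2, fun h => hxy (Subtype.ext h)⟩
  · rintro ⟨x, i⟩ ⟨y, j⟩ ⟨hx, hy, hxy⟩
    refine ⟨(⟨x, hx⟩, i), (⟨y, hy⟩, j), ?_, rfl, rfl⟩
    rw [MP_adj]
    intro h
    exact hxy (congrArg Subtype.val h)

theorem G1 {k w v m : ℕ} (h : GD k w v) (hm : TD k m) : GD k (w * m) v := by
  obtain ⟨𝓑, hB, hU⟩ := h
  refine GD.of (V := (Fin v × Fin w) × Fin m) (fun x => x.1.1) (by simp) ?_ ?_
  · intro i
    have e : {x : (Fin v × Fin w) × Fin m // x.1.1 = i} ≃ Fin w × Fin m :=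
      { toFun := fun x => (x.1.1.2, x.1.2)
        invFun := fun x => ⟨((i, x.1), x.2), rfl⟩
        left_inv := by rintro ⟨⟨⟨a, b⟩, c⟩, rfl⟩; rfl
        right_inv := fun x => rfl }
    rw [Nat.card_congr e]
    simp
  · refine CDec.glue (fun B : {B // B ∈ 𝓑} => infl (Fin m) B.1) ?_ ?_ ?_
    · rintro ⟨B, hBm⟩ x y ⟨hx, hy, hxy⟩
      rw [MP_adj]
      have := (hB B hBm).2 (Finset.mem_coe.2 hx) (Finset.mem_coe.2 hy) hxy
      rwa [MP_adj] at this
    · intro x y hxy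
      rw [MP_adj] at hxy
      obtain ⟨B, ⟨hBm, hx, hy⟩, huniq⟩ := hU x.1 y.1 (by rwa [MP_adj])
      refine ⟨⟨B, hBm⟩, ⟨hx, hy, fun h => hxy (by rw [h])⟩, ?_⟩
      rintro ⟨B', hB'⟩ ⟨hx', hy', -⟩
      exact Subtype.ext (huniq B' ⟨hB', hx', hy'⟩)
    · rintro ⟨B, hBm⟩
      have hc : B.card = k := (hB B hBm).1
      exact infl_cdec B (by rw [hc]; exact hm) (by simp)

end Pool.Agent.WB
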