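import Pool.Agent.WB.Basic

set_option autoImplicit false

/-! # WB module RES -/

namespace Pool.Agent.WB

/-- A clique of size `s` of the complete multipartite graph with `s` parts meets every part. -/
theorem clique_meets {s t : ℕ} (B : Finset (Fin s × Fin t)) (hB : B.card = s)
    (hc : (MP (Prod.fst : Fin s × Fin t → Fin s)).IsClique (B : Set (Fin s × Fin t)))
    (i : Fin s) : ∃ x ∈ B, x.1 = i := by
  classical
  have hinj : Set.InjOn (Prod.fst : Fin s × Fin t → Fin s) (B : Set (Fin s × Fin t)) := by
    intro x hx y hy hxy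
    by_contra hne
    have := hc hx hy hne
    rw [MP_adj] at this
    exact this hxy
  have hcard : (B.image Prod.fst).card = s := by
    rw [Finset.card_image_of_injOn hinj, hB]
  have huniv : B.image Prod.fst = Finset.univ := by
    apply Finset.eq_univ_of_card
    rw [hcard, Fintype.card_fin]
  have hi : i ∈ B.image Prod.fst := by rw [huniv]; exact Finset.mem_univ i
  obtain ⟨x, hx, hxi⟩ := Finset.mem_image.1 hi
  exact ⟨x, hx, hxi⟩

theorem TD_mono {s s' t : ℕ} (h : TD s t) (hs : s' ≤ s) : TD s' t := by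
  classical
  obtain ⟨𝓑, hB, hU⟩ := h
  set f : Fin s' × Fin t → Fin s × Fin t := fun x => (Fin.castLE hs x.1, x.2) with hf
  have hfadj : ∀ x y : Fin s' × Fin t, x.1 ≠ y.1 → (f x).1 ≠ (f y).1 := by
    intro x y hxy hc
    apply hxy
    exact Fin.castLE_injective hs hc
  set R : Finset (Fin s × Fin t) → Finset (Fin s' × Fin t) :=
    fun B => Finset.univ.filter (fun x => f x ∈ B) with hR
  have hmem : ∀ B x, x ∈ R B ↔ f x ∈ B := by
    intro B x
    rw [hR]
    simp
  refine ⟨{C | ∃ B ∈ 𝓑, R B = C}, ?_, ?_⟩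
  · rintro C ⟨B, hBm, rfl⟩
    have hcl : (MP (Prod.fst : Fin s' × Fin t → Fin s')).IsClique
        (R B : Set (Fin s' × Fin t)) := by
      intro x hx y hy hxy
      rw [Finset.mem_coe, hmem] at hx hy
      rw [MP_adj]
      intro hc
      have hne : f x ≠ f y := by
        intro h1
        apply hxy
        apply Prod.ext hc
        have := congrArg Prod.snd h1
        exact this
      have h2 := (hB B hBm).2 (Finset.mem_coe.2 hx) (Finset.mem_coe.2 hy) hne
      rw [MP_adj] at h2
      apply h2
      show Fin.castLE hs x.1 = Fin.castLE hs y.1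
      rw [hc]
    refine ⟨?_, hcl⟩
    have hinj : Set.InjOn (Prod.fst : Fin s' × Fin t → Fin s') (R B : Set (Fin s' × Fin t)) := by
      intro x hx y hy hxy
      by_contra hne
      have := hcl hx hy hne
      rw [MP_adj] at this
      exact this hxy
    have huniv : (R B).image Prod.fst = Finset.univ := by
      apply Finset.eq_univ_of_forall
      intro i
      obtain ⟨x, hx, hxi⟩ := clique_meets B (hB B hBm).1 (hB B hBm).2 (Fin.castLE hs i)
      rw [Finset.mem_image]
      refine ⟨(i, x.2), ?_, rfl⟩
      rw [hmem]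
      have : f (i, x.2) = x := by
        apply Prod.ext
        · exact hxi.symm
        · rfl
      rw [this]
      exact hx
    have hcard := Finset.card_image_of_injOn hinj
    rw [huniv, Finset.card_univ, Fintype.card_fin] at hcard
    exact hcard.symm
  · intro x y hxy
    rw [MP_adj] at hxy
    obtain ⟨B, ⟨hBm, hx, hy⟩, huniq⟩ := hU (f x) (f y) (by rw [MP_adj]; exact hfadj x y hxy)
    refine ⟨R B, ⟨⟨B, hBm, rfl⟩, (hmem B x).2 hx, (hmem B y).2 hy⟩, ?_⟩
    rintro C ⟨⟨B', hB', rfl⟩, hx', hy'⟩
    rw [huniq B' ⟨hB', (hmem B' x).1 hx', (hmem B' y).1 hy'⟩]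

end Pool.Agent.WB
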