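import Pool.Agent.WB.ONE
import Pool.Agent.WB.G1
import Pool.Agent.WB.RES
import Pool.Agent.WB.FLD

set_option autoImplicit false

/-! # WB module GOOD -/

namespace Pool.Agent.WB

/-- every prime power component of `n` is at least `z`. -/
def Good (z n : ℕ) : Prop := 1 ≤ n ∧ ∀ p, p.Prime → p ∣ n → z ≤ p ^ (n.factorization p)

theorem Good.left {z a b : ℕ} (hab : a.Coprime b) (h : Good z (a * b)) : Good z a := by
  have hne : a * b ≠ 0 := by have := h.1; omega
  have ha : a ≠ 0 := fun h0 => hne (by rw [h0, Nat.zero_mul])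
  refine ⟨Nat.one_le_iff_ne_zero.2 ha, ?_⟩
  intro p hp hpa
  have h1 := h.2 p hp (dvd_mul_of_dvd_left hpa b)
  rw [Nat.factorization_mul_of_coprime hab] at h1
  have hpb : ¬ p ∣ b := by
    intro hpb
    have := Nat.dvd_gcd hpa hpb
    rw [hab] at this
    exact hp.one_lt.ne' (Nat.dvd_one.1 this)
  have h2 : b.factorization p = 0 := Nat.factorization_eq_zero_of_not_dvd hpb
  rw [Finsupp.add_apply, h2, Nat.add_zero] at h1
  exact h1

theorem TD_mul {k a b : ℕ} (ha : TD k a) (hb : TD k b) : TD k (a * b) := G1 ha hb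

theorem TD_good {z n : ℕ} (h : Good z n) : TD (z + 1) n := by
  induction n using Nat.recOnPosPrimePosCoprime with
  | prime_pow p n hp hn =>
    have h1 := h.2 p hp (dvd_pow_self p hn.ne')
    rw [hp.factorization_pow] at h1
    rw [Finsupp.single_eq_same] at h1
    exact TD_mono (TD_field ⟨p, n, hp.prime, hn, rfl⟩) (by omega)
  | zero => exact absurd h.1 (by omega)
  | one => exact TD_one _
  | coprime a b ha hb hab iha ihb =>
    have h' : Good z (b * a) := by rwa [Nat.mul_comm] at h
    exact TD_mul (iha (Good.left hab h)) (ihb (Good.left hab.symm h'))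

end Pool.Agent.WB
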