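import Pool.Agent.WB.Basic

set_option autoImplicit false

/-! # WB, module SV: Brun's pure sieve on an interval -/

namespace Pool.Agent.WB

open Finset

namespace SV

theorem card_mul {m n : ℕ} (hm : 0 < m) (hn : 0 < n) (h : m.Coprime n) (P Q : ℕ → Prop)
    [DecidablePred P] [DecidablePred Q] (hP : ∀ t, P (t % m) ↔ P t) (hQ : ∀ t, Q (t % n) ↔ Q t) :
    ((range (m * n)).filter (fun t => P t ∧ Q t)).card =
      ((range m).filter P).card * ((range n).filter Q).card := by
  rw [← card_product]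
  refine card_bij (fun t _ => (t % m, t % n)) ?_ ?_ ?_
  · intro t ht
    simp only [mem_filter, mem_range] at ht
    simp only [mem_product, mem_filter, mem_range]
    exact ⟨⟨Nat.mod_lt _ hm, (hP t).2 ht.2.1⟩, ⟨Nat.mod_lt _ hn, (hQ t).2 ht.2.2⟩⟩
  · intro t ht t' ht' he
    simp only [mem_filter, mem_range] at ht ht'
    simp only [Prod.mk.injEq] at he
    have h1 : t ≡ t' [MOD m * n] :=
      (Nat.modEq_and_modEq_iff_modEq_mul h).1 ⟨he.1, he.2⟩
    exact Nat.ModEq.eq_of_lt_of_lt h1 ht.1 ht'.1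
  · intro b hb
    simp only [mem_product, mem_filter, mem_range] at hb
    obtain ⟨c, hc1, hc2⟩ := Nat.chineseRemainder h b.1 b.2
    have e1 : c % m = b.1 := by
      have := hc1; unfold Nat.ModEq at this; rw [this, Nat.mod_eq_of_lt hb.1.1]
    have e2 : c % n = b.2 := by
      have := hc2; unfold Nat.ModEq at this; rw [this, Nat.mod_eq_of_lt hb.2.1]
    have d1 : c % (m * n) % m = b.1 := by
      rw [Nat.mod_mul_right_mod, e1]
    have d2 : c % (m * n) % n = b.2 := by
      rw [Nat.mod_mul_left_mod, e2]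
    refine ⟨c % (m * n), ?_, ?_⟩
    · simp only [mem_filter, mem_range]
      refine ⟨Nat.mod_lt _ (Nat.mul_pos hm hn), ?_, ?_⟩
      · rw [← hP, d1]; exact hb.1.2
      · rw [← hQ, d2]; exact hb.2.2
    · simp only [d1, d2]

/-- counting on an interval for a periodic predicate -/
theorem count_interval {M : ℕ} (hM : 0 < M) (P : ℕ → Prop) [DecidablePred P]
    (hP : ∀ t, P (t % M) ↔ P t) (x y : ℕ) :
    |(((Ico x (x + y)).filter P).card : ℝ) - y * ((((range M).filter P).card : ℝ) / M)| ≤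
      (((range M).filter P).card : ℝ) := by
  have hper : Function.Periodic P M := by
    intro t
    apply propext
    rw [← hP (t + M), Nat.add_mod_right, hP]
  have hone : ∀ z, ((Ico z (z + M)).filter P).card = ((range M).filter P).card := by
    intro z
    rw [Nat.filter_Ico_card_eq_of_periodic z M P hper, Nat.count_eq_card_filter_range]
  have hmul : ∀ q, ((Ico x (x + q * M)).filter P).card = q * ((range M).filter P).card := by
    intro q
    induction q with
    | zero => simp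
    | succ q ih =>
      have e : Ico x (x + (q + 1) * M) = Ico x (x + q * M) ∪ Ico (x + q * M) (x + q * M + M) := by
        rw [Ico_union_Ico_eq_Ico (by omega) (by omega)]
        congr 1; ring
      rw [e, filter_union, card_union_of_disjoint, ih, hone]
      · ring
      · apply disjoint_filter_filter
        exact Ico_disjoint_Ico_consecutive _ _ _
  set ρ := ((range M).filter P).card with hρ
  set N := ((Ico x (x + y)).filter P).card with hN
  have hlo : (y / M) * ρ ≤ N := by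
    rw [← hmul]
    apply card_le_card
    apply filter_subset_filter
    apply Ico_subset_Ico le_rfl
    have := Nat.div_mul_le_self y M
    omega
  have hhi : N ≤ (y / M + 1) * ρ := by
    rw [← hmul]
    apply card_le_card
    apply filter_subset_filter
    apply Ico_subset_Ico le_rfl
    have := Nat.lt_div_mul_add (a := y) hM
    have e : (y / M + 1) * M = y / M * M + M := by ring
    omega
  have hMr : (0 : ℝ) < M := by exact_mod_cast hM
  have hr0 : (0 : ℝ) ≤ ρ := by positivity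
  have a1 : ((y / M : ℕ) : ℝ) ≤ (y : ℝ) / M := Nat.cast_div_le
  have a2 : (y : ℝ) / M < ((y / M : ℕ) : ℝ) + 1 := by
    rw [div_lt_iff₀ hMr]
    have := Nat.lt_div_mul_add (a := y) hM
    have e : (y / M + 1) * M = y / M * M + M := by ring
    have h3 : y < (y / M + 1) * M := by omega
    exact_mod_cast h3
  have b1 : (((y / M : ℕ) : ℝ)) * ρ ≤ N := by exact_mod_cast hlo
  have b2 : (N : ℝ) ≤ (((y / M : ℕ) : ℝ) + 1) * ρ := by exact_mod_cast hhi
  have e3 : (y : ℝ) * ((ρ : ℝ) / M) = (y : ℝ) / M * ρ := by ring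
  rw [e3, abs_le]
  constructor <;> nlinarith

theorem count_prod (S : Finset ℕ) (hS : ∀ p ∈ S, p.Prime) (bad : ℕ → ℕ → Prop)
    [∀ p, DecidablePred (bad p)] (hbad : ∀ p t, bad p (t % p) ↔ bad p t) :
    ((range (∏ p ∈ S, p)).filter (fun t => ∀ p ∈ S, bad p t)).card =
      ∏ p ∈ S, ((range p).filter (bad p)).card := by
  induction S using Finset.induction_on with
  | empty => simp
  | insert q S hq ih =>
    have hS' : ∀ p ∈ S, p.Prime := fun p hp => hS p (mem_insert_of_mem hp)
    have hqp : q.Prime := hS q (mem_insert_self _ _)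
    rw [prod_insert hq, prod_insert hq, ← ih hS']
    rw [← card_mul hqp.pos (prod_pos fun p hp => (hS' p hp).pos) _ (bad q)
      (fun t => ∀ p ∈ S, bad p t) (hbad q)]
    · congr 1
      apply filter_congr
      intro t _
      simp only [mem_insert, forall_eq_or_imp]
    · intro t
      apply forall₂_congr
      intro p hp
      rw [← hbad p (t % _), Nat.mod_mod_of_dvd _ (dvd_prod_of_mem _ hp), hbad]
    · apply Nat.Coprime.prod_right
      intro p hp
      exact (Nat.coprime_primes hqp (hS' p hp)).2 (fun h => hq (h ▸ hp))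

theorem trunc_sum (f : ℕ → ℝ) (B : Finset ℕ) (W : ℕ) :
    ∑ S ∈ B.powerset, (if S.card ≤ W then f S.card else 0) =
      ∑ m ∈ range (W + 1), (B.card.choose m : ℝ) * f m := by
  rw [sum_powerset_apply_card (fun m => if m ≤ W then f m else 0)]
  simp only [nsmul_eq_mul]
  have e1 : ∑ m ∈ range (B.card + 1), (B.card.choose m : ℝ) * (if m ≤ W then f m else 0) =
      ∑ m ∈ range (B.card + 1 + (W + 1)),
        (B.card.choose m : ℝ) * (if m ≤ W then f m else 0) := by
    apply sum_subset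
    · intro m; simp only [mem_range]; omega
    · intro m _ hm
      simp only [mem_range, not_lt] at hm
      rw [Nat.choose_eq_zero_of_lt (by omega)]; simp
  have e2 : ∑ m ∈ range (W + 1), (B.card.choose m : ℝ) * (if m ≤ W then f m else 0) =
      ∑ m ∈ range (B.card + 1 + (W + 1)),
        (B.card.choose m : ℝ) * (if m ≤ W then f m else 0) := by
    apply sum_subset
    · intro m; simp only [mem_range]; omega
    · intro m _ hm
      simp only [mem_range, not_lt] at hm
      rw [if_neg (by omega)]; simp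
  rw [e1, ← e2]
  apply sum_congr rfl
  intro m hm
  simp only [mem_range] at hm
  rw [if_pos (by omega)]

/-- Bonferroni's inequality, pointwise. -/
theorem bonf (P B : Finset ℕ) (hB : B ⊆ P) (W : ℕ) (hW : Odd W) :
    ∑ S ∈ P.powerset, (if S.card ≤ W then (-1 : ℝ) ^ S.card * (if S ⊆ B then 1 else 0) else 0) ≤
      if B = ∅ then 1 else 0 := by
  have e : ∑ S ∈ P.powerset,
      (if S.card ≤ W then (-1 : ℝ) ^ S.card * (if S ⊆ B then 1 else 0) else 0) =
      ∑ S ∈ B.powerset, (if S.card ≤ W then (-1 : ℝ) ^ S.card else 0) := by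
    symm
    rw [← sum_subset (powerset_mono.2 hB)]
    · apply sum_congr rfl
      intro S hS
      rw [mem_powerset] at hS
      simp [hS]
    · intro S _ hS
      rw [mem_powerset] at hS
      simp [hS]
  rw [e, trunc_sum]
  split_ifs with h0
  · subst h0
    rw [sum_eq_single 0]
    · simp
    · intro m _ hm
      rw [card_empty, Nat.choose_eq_zero_of_lt (by omega)]; simp
    · simp
  · obtain ⟨n, hn⟩ : ∃ n, B.card = n + 1 :=
      ⟨B.card - 1, by have := card_pos.2 (nonempty_iff_ne_empty.2 h0); omega⟩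
    have h1 := Int.alternating_sum_range_choose_eq_choose (n := n) (m := W)
    have h2 : (∑ m ∈ range (W + 1), (B.card.choose m : ℝ) * (-1) ^ m) =
        ((∑ k ∈ range (W + 1), ((-1) ^ k * (n + 1).choose k : ℤ) : ℤ) : ℝ) := by
      push_cast
      rw [hn]
      apply sum_congr rfl
      intro m _
      ring
    rw [h2, h1, hW.neg_one_pow]
    push_cast
    have : (0 : ℝ) ≤ (n.choose W : ℝ) := by positivity
    linarith

theorem prod_lo (N : ℕ) (hN : 5 ≤ N) :
    ∏ n ∈ Ico 5 N, (1 - 2 / (n : ℝ)) = 12 / (((N : ℝ) - 1) * ((N : ℝ) - 2)) := by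
  induction N, hN using Nat.le_induction with
  | base => norm_num
  | succ N hN ih =>
    rw [prod_Ico_succ_top hN, ih]
    have h5 : (5 : ℝ) ≤ N := by exact_mod_cast hN
    have h1 : ((N : ℝ) - 1) ≠ 0 := by linarith
    have h2 : ((N : ℝ) - 2) ≠ 0 := by linarith
    have h3 : (N : ℝ) ≠ 0 := by linarith
    push_cast
    have h4 : ((N : ℝ) + 1 - 1) ≠ 0 := by linarith
    have h6 : ((N : ℝ) + 1 - 2) ≠ 0 := by linarith
    field_simp
    ring

theorem prod_hi (N : ℕ) (hN : 5 ≤ N) :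
    ∏ n ∈ Ico 5 N, (1 + 1 / (n : ℝ)) = (N : ℝ) / 5 := by
  induction N, hN using Nat.le_induction with
  | base => norm_num
  | succ N hN ih =>
    rw [prod_Ico_succ_top hN, ih]
    have h5 : (5 : ℝ) ≤ N := by exact_mod_cast hN
    have h3 : (N : ℝ) ≠ 0 := by linarith
    push_cast
    field_simp

/-- lower bound for the main term -/
theorem main_lo (N : ℕ) (hN : 1 ≤ N) (P : Finset ℕ) (hP : P ⊆ Ico 5 N) (w : ℕ → ℝ)
    (hw0 : ∀ p ∈ P, 0 ≤ w p) (hw : ∀ p ∈ P, w p ≤ 2) :
    1 / (N : ℝ) ^ 2 ≤ ∏ p ∈ P, (1 - w p / p) := by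
  have hN1 : (1 : ℝ) ≤ N := by exact_mod_cast hN
  by_cases h5 : 5 ≤ N
  · have h5' : (5 : ℝ) ≤ N := by exact_mod_cast h5
    have a1 : ∏ n ∈ Ico 5 N, (1 - 2 / (n : ℝ)) ≤ ∏ p ∈ P, (1 - 2 / (p : ℝ)) := by
      apply prod_le_prod_of_subset_of_le_one hP
      · intro i hi
        simp only [mem_Ico] at hi
        have : (5 : ℝ) ≤ i := by exact_mod_cast hi.1
        rw [sub_nonneg, div_le_one (by linarith)]; linarith
      · intro i hi _
        simp only [mem_Ico] at hi
        have : (0 : ℝ) ≤ 2 / (i : ℝ) := by positivity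
        linarith
    have a2 : ∏ p ∈ P, (1 - 2 / (p : ℝ)) ≤ ∏ p ∈ P, (1 - w p / p) := by
      apply prod_le_prod
      · intro i hi
        have := mem_Ico.1 (hP hi)
        have : (5 : ℝ) ≤ i := by exact_mod_cast this.1
        rw [sub_nonneg, div_le_one (by linarith)]; linarith
      · intro i hi
        have := mem_Ico.1 (hP hi)
        have h0 : (0 : ℝ) < i := by
          have : (5 : ℝ) ≤ i := by exact_mod_cast this.1
          linarith
        have := hw i hi
        gcongr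
    rw [prod_lo N h5] at a1
    refine le_trans ?_ (a1.trans a2)
    rw [div_le_div_iff₀ (by positivity) (by apply mul_pos <;> linarith)]
    nlinarith
  · have hPe : P = ∅ := by
      rw [Ico_eq_empty (by omega)] at hP
      exact subset_empty.1 hP
    subst hPe
    simp only [prod_empty]
    rw [div_le_one (by positivity)]
    exact one_le_pow₀ hN1

/-- upper bound for the tail product -/
theorem main_hi (N : ℕ) (hN : 1 ≤ N) (P : Finset ℕ) (hP : P ⊆ Ico 5 N) (w : ℕ → ℝ)
    (hw0 : ∀ p ∈ P, 0 ≤ w p) (hw : ∀ p ∈ P, w p ≤ 2) :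
    ∏ p ∈ P, (1 + 4 * (w p / p)) ≤ (N : ℝ) ^ 8 := by
  have hN1 : (1 : ℝ) ≤ N := by exact_mod_cast hN
  by_cases h5 : 5 ≤ N
  · have h5' : (5 : ℝ) ≤ N := by exact_mod_cast h5
    have a1 : ∏ p ∈ P, (1 + 4 * (w p / p)) ≤ ∏ p ∈ P, (1 + 1 / (p : ℝ)) ^ 8 := by
      apply prod_le_prod
      · intro i hi
        have := hw0 i hi
        positivity
      · intro i hi
        have := mem_Ico.1 (hP hi)
        have h0 : (0 : ℝ) < i := by
          have : (5 : ℝ) ≤ i := by exact_mod_cast this.1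
          linarith
        have h1 := one_add_mul_le_pow (a := 1 / (i : ℝ)) (by
          have : (0 : ℝ) ≤ 1 / (i : ℝ) := by positivity
          linarith) 8
        have h2 : w i / i ≤ 2 / i := by
          have := hw i hi
          gcongr
        have h3 : 2 / (i : ℝ) = 2 * (1 / i) := by ring
        push_cast at h1
        linarith
    have a2 : ∏ p ∈ P, (1 + 1 / (p : ℝ)) ^ 8 ≤ ∏ n ∈ Ico 5 N, (1 + 1 / (n : ℝ)) ^ 8 := by
      apply prod_le_prod_of_subset_of_one_le hP
      · intro i _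
        positivity
      · intro i _ _
        apply one_le_pow₀
        have : (0 : ℝ) ≤ 1 / (i : ℝ) := by positivity
        linarith
    have a3 : ∏ n ∈ Ico 5 N, (1 + 1 / (n : ℝ)) ^ 8 = ((N : ℝ) / 5) ^ 8 := by
      rw [prod_pow, prod_hi N h5]
    rw [a3] at a2
    refine (a1.trans a2).trans ?_
    apply pow_le_pow_left₀ (by positivity)
    rw [div_le_iff₀ (by norm_num)]
    linarith
  · have hPe : P = ∅ := by
      rw [Ico_eq_empty (by omega)] at hP
      exact subset_empty.1 hP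
    subst hPe
    simp only [prod_empty]
    exact one_le_pow₀ hN1

theorem err (P : Finset ℕ) (W : ℕ) :
    ∑ S ∈ P.powerset, (if S.card ≤ W then (2 : ℝ) ^ S.card else 0) ≤
      (2 * (P.card : ℝ) + 1) ^ W := by
  rw [trunc_sum (fun m => (2 : ℝ) ^ m), add_pow]
  apply sum_le_sum
  intro m hm
  simp only [mem_range] at hm
  have h1 : (P.card.choose m : ℝ) ≤ (P.card : ℝ) ^ m := by
    exact_mod_cast Nat.choose_le_pow _ _
  have h2 : (1 : ℝ) ≤ (W.choose m : ℝ) := by
    exact_mod_cast Nat.choose_pos (by omega)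
  rw [one_pow, mul_one, mul_pow]
  have h3 : (0 : ℝ) ≤ 2 ^ m * (P.card : ℝ) ^ m := by positivity
  calc (P.card.choose m : ℝ) * 2 ^ m ≤ (P.card : ℝ) ^ m * 2 ^ m := by gcongr
    _ = 2 ^ m * (P.card : ℝ) ^ m * 1 := by ring
    _ ≤ 2 ^ m * (P.card : ℝ) ^ m * (W.choose m : ℝ) := by gcongr

/-- tail of the elementary symmetric functions, Rankin style -/
theorem tail (P : Finset ℕ) (g : ℕ → ℝ) (hg : ∀ p ∈ P, 0 ≤ g p) (W : ℕ) :
    ∑ S ∈ P.powerset, (if S.card ≤ W then 0 else ∏ p ∈ S, g p) ≤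
      (∏ p ∈ P, (1 + 4 * g p)) / 4 ^ (W + 1) := by
  rw [prod_one_add, sum_div]
  apply sum_le_sum
  intro S hS
  rw [mem_powerset] at hS
  have h0 : 0 ≤ ∏ p ∈ S, g p := prod_nonneg fun p hp => hg p (hS hp)
  rw [prod_mul_distrib, prod_const]
  split_ifs with h
  · positivity
  · rw [le_div_iff₀ (by positivity), mul_comm]
    have : (4 : ℝ) ^ (W + 1) ≤ 4 ^ S.card := by
      apply pow_le_pow_right₀ (by norm_num); omega
    gcongr

theorem alt (P : Finset ℕ) (g : ℕ → ℝ) (hg : ∀ p ∈ P, 0 ≤ g p) (W : ℕ) :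
    (∏ p ∈ P, (1 - g p)) - (∏ p ∈ P, (1 + 4 * g p)) / 4 ^ (W + 1) ≤
      ∑ S ∈ P.powerset, (if S.card ≤ W then (-1 : ℝ) ^ S.card * ∏ p ∈ S, g p else 0) := by
  have h1 : ∏ p ∈ P, (1 - g p) = ∑ S ∈ P.powerset, (-1 : ℝ) ^ S.card * ∏ p ∈ S, g p := by
    have : ∀ p, 1 - g p = 1 + (-1) * g p := fun p => by ring
    simp_rw [this]
    rw [prod_one_add]
    apply sum_congr rfl
    intro S _
    rw [prod_mul_distrib, prod_const]
  have h2 := tail P g hg W
  have h3 : ∑ S ∈ P.powerset, (-1 : ℝ) ^ S.card * ∏ p ∈ S, g p ≤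
      (∑ S ∈ P.powerset, (if S.card ≤ W then (-1 : ℝ) ^ S.card * ∏ p ∈ S, g p else 0)) +
      ∑ S ∈ P.powerset, (if S.card ≤ W then 0 else ∏ p ∈ S, g p) := by
    rw [← sum_add_distrib]
    apply sum_le_sum
    intro S hS
    rw [mem_powerset] at hS
    have h0 : 0 ≤ ∏ p ∈ S, g p := prod_nonneg fun p hp => hg p (hS hp)
    split_ifs
    · simp
    · rcases neg_one_pow_eq_or ℝ S.card with h | h <;> rw [h] <;> linarith
  linarith

/-- the sieve, with abstract periodic bad sets -/
theorem sieve (N : ℕ) (hN : 1 ≤ N) (P : Finset ℕ) (hP : P ⊆ Ico 5 N) (hPp : ∀ p ∈ P, p.Prime)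
    (bad : ℕ → ℕ → Prop) [∀ p, DecidablePred (bad p)]
    (hbad : ∀ p t, bad p (t % p) ↔ bad p t)
    (hω : ∀ p ∈ P, ((range p).filter (bad p)).card ≤ 2)
    (W : ℕ) (hW : Odd W) (x y : ℕ) :
    (y : ℝ) * (1 / (N : ℝ) ^ 2 - (N : ℝ) ^ 8 / 4 ^ (W + 1)) - (2 * (P.card : ℝ) + 1) ^ W ≤
      (((Ico x (x + y)).filter (fun t => ∀ p ∈ P, ¬ bad p t)).card : ℝ) := by
  set ω : ℕ → ℝ := fun p => (((range p).filter (bad p)).card : ℝ) with hωd
  have hω2 : ∀ p ∈ P, ω p ≤ 2 := fun p hp => by
    simp only [hωd]; exact_mod_cast hω p hp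
  have hω0 : ∀ p ∈ P, 0 ≤ ω p := fun p _ => by simp only [hωd]; positivity
  set g : ℕ → ℝ := fun p => ω p / p with hgd
  have hg0 : ∀ p ∈ P, 0 ≤ g p := fun p hp => by
    simp only [hgd]; have := hω0 p hp; positivity
  -- counts
  set C : Finset ℕ → ℝ := fun S => (((Ico x (x + y)).filter (fun t => ∀ p ∈ S, bad p t)).card : ℝ)
    with hC
  have hCS : ∀ S ∈ P.powerset, |C S - y * ∏ p ∈ S, g p| ≤ 2 ^ S.card := by
    intro S hS
    rw [mem_powerset] at hS
    have hSp : ∀ p ∈ S, p.Prime := fun p hp => hPp p (hS hp)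
    have hM : 0 < ∏ p ∈ S, p := prod_pos fun p hp => (hSp p hp).pos
    have hper : ∀ t, (∀ p ∈ S, bad p (t % ∏ p ∈ S, p)) ↔ (∀ p ∈ S, bad p t) := by
      intro t
      apply forall₂_congr
      intro p hp
      rw [← hbad p (t % _), Nat.mod_mod_of_dvd _ (dvd_prod_of_mem _ hp), hbad]
    have h1 := count_interval hM (fun t => ∀ p ∈ S, bad p t) hper x y
    rw [count_prod S hSp bad hbad] at h1
    have h2 : (((∏ p ∈ S, ((range p).filter (bad p)).card : ℕ) : ℝ)) = ∏ p ∈ S, ω p := by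
      rw [Nat.cast_prod]
    have h3 : ((∏ p ∈ S, p : ℕ) : ℝ) = ∏ p ∈ S, (p : ℝ) := by
      rw [Nat.cast_prod]
    rw [h2, h3, ← prod_div_distrib] at h1
    refine h1.trans ?_
    calc ∏ p ∈ S, ω p ≤ ∏ p ∈ S, (2 : ℝ) := by
          apply prod_le_prod
          · intro p hp; exact hω0 p (hS hp)
          · intro p hp; exact hω2 p (hS hp)
      _ = 2 ^ S.card := by rw [prod_const]
  -- pointwise bonferroni, summed
  have hsum : ∑ S ∈ P.powerset, (if S.card ≤ W then (-1 : ℝ) ^ S.card * C S else 0) ≤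
      (((Ico x (x + y)).filter (fun t => ∀ p ∈ P, ¬ bad p t)).card : ℝ) := by
    have h1 : ∀ t ∈ Ico x (x + y),
        ∑ S ∈ P.powerset, (if S.card ≤ W then (-1 : ℝ) ^ S.card *
          (if S ⊆ P.filter (fun p => bad p t) then 1 else 0) else 0) ≤
        if P.filter (fun p => bad p t) = ∅ then 1 else 0 := fun t _ =>
      bonf P (P.filter (fun p => bad p t)) (filter_subset _ _) W hW
    have h2 := sum_le_sum h1
    rw [sum_comm] at h2
    have h3 : ∑ t ∈ Ico x (x + y), (if P.filter (fun p => bad p t) = ∅ then (1 : ℝ) else 0) =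
        (((Ico x (x + y)).filter (fun t => ∀ p ∈ P, ¬ bad p t)).card : ℝ) := by
      rw [sum_ite, sum_const_zero, add_zero, sum_const, nsmul_eq_mul, mul_one]
      congr 2
      apply filter_congr
      intro t _
      rw [filter_eq_empty_iff]
    rw [h3] at h2
    refine le_trans (le_of_eq ?_) h2
    apply sum_congr rfl
    intro S hS
    rw [mem_powerset] at hS
    split_ifs with h
    · rw [← mul_sum, hC]
      congr 1
      simp only
      rw [sum_ite, sum_const_zero, add_zero, sum_const, nsmul_eq_mul, mul_one]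
      congr 2
      apply filter_congr
      intro t _
      constructor
      · intro h p hp
        rw [mem_filter]
        exact ⟨hS hp, h p hp⟩
      · intro h p hp
        exact (mem_filter.1 (h hp)).2
    · rw [sum_const_zero]
  have halt := alt P g hg0 W
  have hlo := main_lo N hN P hP ω hω0 hω2
  have hhi := main_hi N hN P hP ω hω0 hω2
  have herr := err P W
  have hcmp : (y : ℝ) * (∑ S ∈ P.powerset,
        (if S.card ≤ W then (-1 : ℝ) ^ S.card * ∏ p ∈ S, g p else 0)) -
      ∑ S ∈ P.powerset, (if S.card ≤ W then (2 : ℝ) ^ S.card else 0) ≤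
      ∑ S ∈ P.powerset, (if S.card ≤ W then (-1 : ℝ) ^ S.card * C S else 0) := by
    rw [mul_sum, ← sum_sub_distrib]
    apply sum_le_sum
    intro S hS
    have h1 := hCS S hS
    rw [abs_le] at h1
    split_ifs with h
    · rcases neg_one_pow_eq_or ℝ S.card with h' | h' <;> rw [h'] <;> linarith [h1.1, h1.2]
    · simp
  have hy : (0 : ℝ) ≤ y := by positivity
  have h4 : (∏ p ∈ P, (1 + 4 * g p)) / 4 ^ (W + 1) ≤ (N : ℝ) ^ 8 / 4 ^ (W + 1) := by
    simp only [hgd]
    gcongr
  have h5 : 1 / (N : ℝ) ^ 2 - (N : ℝ) ^ 8 / 4 ^ (W + 1) ≤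
      ∑ S ∈ P.powerset, (if S.card ≤ W then (-1 : ℝ) ^ S.card * ∏ p ∈ S, g p else 0) := by
    have : ∏ p ∈ P, (1 - g p) = ∏ p ∈ P, (1 - ω p / p) := rfl
    rw [this] at halt
    linarith
  have h6 := mul_le_mul_of_nonneg_left h5 hy
  linarith

end SV

/-- Brun's pure sieve on an interval, two residue classes removed for each prime in [5,2^l). -/
theorem sieve_interval (l : ℕ) (hl : 1 ≤ l) (a b : (p : ℕ) → ZMod p) (x : ℕ) :
    ∃ t, x ≤ t ∧ t < x + 2 ^ (26 * l ^ 2) ∧
      ∀ p, p.Prime → 5 ≤ p → p < 2 ^ l → (t : ZMod p) ≠ a p ∧ (t : ZMod p) ≠ b p := by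
  classical
  set P : Finset ℕ := (Ico 5 (2 ^ l)).filter Nat.Prime with hPd
  set bad : ℕ → ℕ → Prop := fun p t => (t : ZMod p) = a p ∨ (t : ZMod p) = b p with hbd
  have hbad : ∀ p t, bad p (t % p) ↔ bad p t := by
    intro p t
    simp only [hbd, ZMod.natCast_mod]
  have hω : ∀ p ∈ P, ((range p).filter (bad p)).card ≤ 2 := by
    intro p hp
    have hpp : p.Prime := (mem_filter.1 hp).2
    have : ((range p).filter (bad p)).card ≤ ({a p, b p} : Finset (ZMod p)).card := by
      apply card_le_card_of_injOn (fun t : ℕ => (t : ZMod p))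
      · intro t ht
        have h := (mem_filter.1 ht).2
        simp only [coe_insert, coe_singleton, Set.mem_insert_iff, Set.mem_singleton_iff]
        exact h
      · intro s hs t ht hst
        have h1 := mem_range.1 (mem_filter.1 hs).1
        have h2 := mem_range.1 (mem_filter.1 ht).1
        have h3 : (s : ZMod p) = (t : ZMod p) := hst
        rw [ZMod.natCast_eq_natCast_iff] at h3
        exact Nat.ModEq.eq_of_lt_of_lt h3 h1 h2
    exact this.trans card_le_two
  have hmain := SV.sieve (2 ^ l) Nat.one_le_two_pow P (filter_subset _ _)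
    (fun p hp => (mem_filter.1 hp).2) bad hbad hω (12 * l - 1) (by
      refine ⟨6 * l - 1, by omega⟩) x (2 ^ (26 * l ^ 2))
  have hpos : (0 : ℝ) < ((2 ^ (26 * l ^ 2) : ℕ) : ℝ) * (1 / ((2 ^ l : ℕ) : ℝ) ^ 2 -
      ((2 ^ l : ℕ) : ℝ) ^ 8 / 4 ^ (12 * l - 1 + 1)) - (2 * (P.card : ℝ) + 1) ^ (12 * l - 1) := by
    have hPc : 2 * (P.card : ℝ) + 1 ≤ 2 ^ (l + 1) := by
      have h1 : P.card ≤ 2 ^ l - 1 := by
        by_cases h5 : 5 ≤ 2 ^ l
        · have h0 : P ⊆ Ico 5 (2 ^ l) := filter_subset _ _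
          have := card_le_card h0
          rw [Nat.card_Ico] at this
          omega
        · have : P = ∅ := by
            rw [hPd, Ico_eq_empty (by omega)]; simp
          rw [this]; simp
      have h2 : 2 * P.card + 1 ≤ 2 ^ (l + 1) := by
        have := Nat.one_le_two_pow (n := l)
        rw [pow_succ]; omega
      exact_mod_cast h2
    have h12 : 12 * l - 1 + 1 = 12 * l := by omega
    rw [h12]
    push_cast
    have e4 : (4 : ℝ) ^ (12 * l) = 2 ^ (24 * l) := by
      rw [show (4 : ℝ) = 2 ^ 2 by norm_num, ← pow_mul]; congr 1; ring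
    rw [e4, ← pow_mul, ← pow_mul]
    have e5 : (2 : ℝ) ^ (24 * l) = 2 ^ (l * 8) * 2 ^ (16 * l) := by
      rw [← pow_add]; congr 1; ring
    have e6 : (2 : ℝ) ^ (l * 8) / 2 ^ (24 * l) = 1 / 2 ^ (16 * l) := by
      rw [e5]; field_simp
    rw [e6]
    -- 1/2^(2l) - 1/2^(16l) ≥ 1/2^(2l+1)
    have h7 : (1 : ℝ) / 2 ^ (l * 2 + 1) ≤ 1 / 2 ^ (l * 2) - 1 / 2 ^ (16 * l) := by
      have : (1 : ℝ) / 2 ^ (16 * l) ≤ 1 / 2 ^ (l * 2 + 1) := by
        apply one_div_le_one_div_of_le (by positivity)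
        apply pow_le_pow_right₀ (by norm_num); omega
      have e : (1 : ℝ) / 2 ^ (l * 2) = 2 * (1 / 2 ^ (l * 2 + 1)) := by
        rw [pow_succ]; field_simp
      linarith
    have h8 : (2 * (P.card : ℝ) + 1) ^ (12 * l - 1) ≤ (2 : ℝ) ^ ((l + 1) * (12 * l - 1)) := by
      rw [pow_mul]
      apply pow_le_pow_left₀ (by positivity) hPc
    have h9 : (2 : ℝ) ^ ((l + 1) * (12 * l - 1)) <
        2 ^ (26 * l ^ 2) * (1 / 2 ^ (l * 2 + 1)) := by
      rw [mul_one_div, lt_div_iff₀ (by positivity), ← pow_add]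
      apply pow_lt_pow_right₀ (by norm_num)
      obtain ⟨k, rfl⟩ : ∃ k, l = k + 1 := ⟨l - 1, by omega⟩
      have : 12 * (k + 1) - 1 = 12 * k + 11 := by omega
      rw [this]
      nlinarith
    have h10 : (2 : ℝ) ^ (26 * l ^ 2) * (1 / 2 ^ (l * 2 + 1)) ≤
        2 ^ (26 * l ^ 2) * (1 / 2 ^ (l * 2) - 1 / 2 ^ (16 * l)) := by
      gcongr
    linarith
  have hcard : 0 < ((Ico x (x + 2 ^ (26 * l ^ 2))).filter (fun t => ∀ p ∈ P, ¬ bad p t)).card := by
    have := lt_of_lt_of_le hpos hmain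
    exact_mod_cast this
  obtain ⟨t, ht⟩ := card_pos.1 hcard
  simp only [mem_filter, mem_Ico] at ht
  refine ⟨t, ht.1.1, ht.1.2, ?_⟩
  intro p hp h5 hl2
  have hpP : p ∈ P := by
    rw [hPd, mem_filter, mem_Ico]; exact ⟨⟨h5, hl2⟩, hp⟩
  have := ht.2 p hpP
  simp only [hbd, not_or] at this
  exact this

end Pool.Agent.WB
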