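import Pool.Agent.WB.GOOD
import Pool.Agent.WB.SV

set_option autoImplicit false

/-! Module NT: splitting a large number into numbers with large prime power components. -/

namespace Pool.Agent.WB

theorem nt_good_of {l x : ℕ} (hx : 1 ≤ x) (h2 : 2 ∣ x → 2 ^ l ∣ x) (h3 : ¬ 3 ∣ x)
    (hp : ∀ p, p.Prime → 5 ≤ p → p < 2 ^ l → ¬ p ∣ x) : Good (2 ^ l) x := by
  refine ⟨hx, fun p hpp hpx => ?_⟩
  by_cases hp2 : p = 2
  · subst hp2
    have h := (Nat.Prime.pow_dvd_iff_le_factorization hpp (by omega)).1 (h2 hpx)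
    exact Nat.pow_le_pow_right (by norm_num) h
  · have hp3 : p ≠ 3 := by
      rintro rfl
      exact h3 hpx
    have h2' := hpp.two_le
    have hp4 : p ≠ 4 := by
      rintro rfl
      exact absurd hpp (by norm_num)
    have hz : 2 ^ l ≤ p := by
      by_contra hlt
      exact hp p hpp (by omega) (by omega) hpx
    have hf : 1 ≤ x.factorization p :=
      (hpp.dvd_iff_one_le_factorization (by omega)).1 hpx
    calc 2 ^ l ≤ p := hz
      _ = p ^ 1 := (pow_one p).symm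
      _ ≤ p ^ x.factorization p := Nat.pow_le_pow_right (by omega) hf

theorem nt_crt (l n : ℕ) : ∃ c, c < 3 * 2 ^ l ∧ c % 3 = 1 ∧ (n % 2 = 1 → 2 ^ l ∣ c) ∧
    (n % 2 = 0 → 2 ^ l ∣ c + 1) := by
  have hco : Nat.Coprime 3 (2 ^ l) := by
    apply Nat.Coprime.pow_right
    norm_num
  have hpos : 0 < 2 ^ l := by positivity
  rcases Nat.mod_two_eq_zero_or_one n with h | h
  · set k := Nat.chineseRemainder hco 1 (2 ^ l - 1) with hk
    have hlt := Nat.chineseRemainder_lt_mul hco 1 (2 ^ l - 1) (by norm_num) hpos.ne'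
    refine ⟨k.1, hlt, ?_, fun h' => by omega, fun _ => ?_⟩
    · exact k.2.1
    · have h1 : k.1 + 1 ≡ (2 ^ l - 1) + 1 [MOD 2 ^ l] := Nat.ModEq.add_right 1 k.2.2
      rw [Nat.sub_add_cancel hpos] at h1
      exact (Nat.modEq_zero_iff_dvd).1 (h1.trans (Nat.modEq_zero_iff_dvd.2 dvd_rfl))
  · set k := Nat.chineseRemainder hco 1 0 with hk
    have hlt := Nat.chineseRemainder_lt_mul hco 1 0 (by norm_num) hpos.ne'
    refine ⟨k.1, hlt, ?_, fun _ => ?_, fun h' => by omega⟩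
    · exact k.2.1
    · exact (Nat.modEq_zero_iff_dvd).1 k.2.2

/-- Linear forms avoid two classes. -/
theorem nt_linear (l : ℕ) (hl : 1 ≤ l) (q c x : ℕ) (a b : (p : ℕ) → ZMod p)
    (hq : ∀ p, p.Prime → 5 ≤ p → p < 2 ^ l → ¬ p ∣ q) :
    ∃ t, x ≤ t ∧ t < x + 2 ^ (26 * l ^ 2) ∧
      ∀ p, p.Prime → 5 ≤ p → p < 2 ^ l →
        ((q * t + c : ℕ) : ZMod p) ≠ a p ∧ ((q * t + c : ℕ) : ZMod p) ≠ b p := by
  obtain ⟨t, h1, h2, h3⟩ := sieve_interval l hl (fun p => (a p - c) * (q : ZMod p)⁻¹)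
    (fun p => (b p - c) * (q : ZMod p)⁻¹) x
  refine ⟨t, h1, h2, fun p hp h5 hlt => ?_⟩
  have := Fact.mk hp
  have hq0 : (q : ZMod p) ≠ 0 := by
    intro h
    exact hq p hp h5 hlt ((ZMod.natCast_eq_zero_iff _ _).1 h)
  obtain ⟨ha, hb⟩ := h3 p hp h5 hlt
  push_cast
  constructor
  · intro h
    apply ha
    rw [← h]
    field_simp
    ring
  · intro h
    apply hb
    rw [← h]
    field_simp
    ring

theorem good_split (l : ℕ) (hl : 1 ≤ l) (n : ℕ) (hn : 2 ^ (100 * l ^ 2) ≤ n) :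
    ∃ m t u, n = m * t + u ∧ u ≤ t ∧ Good (2 ^ l) m ∧ Good (2 ^ l) (m + 1) ∧
      Good (2 ^ l) t ∧ Good (2 ^ l) u := by
  set y := 2 ^ (26 * l ^ 2) with hy
  have hy1 : 1 ≤ y := Nat.one_le_two_pow
  have hl2 : 2 ∣ 2 ^ l := dvd_pow_self 2 (by omega)
  have hzpos : 0 < 2 ^ l := by positivity
  -- the number `m`
  obtain ⟨c, hc, hc3, hco, hce⟩ := nt_crt l n
  have hq : ∀ p, p.Prime → 5 ≤ p → p < 2 ^ l → ¬ p ∣ 3 * 2 ^ l := by
    intro p hp h5 _ hd
    rcases (Nat.Prime.dvd_mul hp).1 hd with h | h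
    · have := Nat.le_of_dvd (by norm_num) h
      omega
    · have := Nat.le_of_dvd (by norm_num) (hp.dvd_of_dvd_pow h)
      omega
  obtain ⟨τ, hτ1, hτ2, hτ⟩ := nt_linear l hl (3 * 2 ^ l) c 1 (fun p => 0) (fun p => -1) hq
  set m := 3 * 2 ^ l * τ + c with hm
  rw [← hy] at hτ2
  have hmlt : m + 1 ≤ 3 * 2 ^ l * (y + 2) := by
    have : 3 * 2 ^ l * τ ≤ 3 * 2 ^ l * (y + 1) := Nat.mul_le_mul_left _ (by omega)
    calc m + 1 ≤ 3 * 2 ^ l * (y + 1) + 3 * 2 ^ l := by omega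
      _ = 3 * 2 ^ l * (y + 2) := by ring
  have hm1 : 1 ≤ m := by omega
  have hm3 : m % 3 = 1 := by
    rw [hm, mul_assoc, Nat.add_mod, Nat.mul_mod_right]
    omega
  have hmd : ∀ d, 2 ^ l ∣ c + d → 2 ^ l ∣ m + d := by
    intro d hd
    rw [hm, add_assoc]
    exact dvd_add (Dvd.intro (3 * τ) (by ring)) hd
  have hmodd : n % 2 = 1 → 2 ^ l ∣ m := fun h => by
    simpa using hmd 0 (by simpa using hco h)
  have hmev : n % 2 = 0 → 2 ^ l ∣ m + 1 := fun h => hmd 1 (hce h)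
  have hmp : ∀ p, p.Prime → 5 ≤ p → p < 2 ^ l → ¬ p ∣ m := by
    intro p hp h5 hlt hd
    exact (hτ p hp h5 hlt).1 ((ZMod.natCast_eq_zero_iff _ _).2 hd)
  have hmp1 : ∀ p, p.Prime → 5 ≤ p → p < 2 ^ l → ¬ p ∣ m + 1 := by
    intro p hp h5 hlt hd
    have h := (ZMod.natCast_eq_zero_iff (m + 1) p).2 hd
    push_cast at h
    exact (hτ p hp h5 hlt).2 (eq_neg_of_add_eq_zero_left h)
  have hgm : Good (2 ^ l) m := by
    refine nt_good_of hm1 (fun h => ?_) (by omega) hmp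
    rcases Nat.mod_two_eq_zero_or_one n with h' | h'
    · have := hl2.trans (hmev h')
      omega
    · exact hmodd h'
  have hgm1 : Good (2 ^ l) (m + 1) := by
    refine nt_good_of (by omega) (fun h => ?_) (by omega) hmp1
    rcases Nat.mod_two_eq_zero_or_one n with h' | h'
    · exact hmev h'
    · have := hl2.trans (hmodd h')
      omega
  -- the number `t`
  obtain ⟨c', hc'6, hc'2, hc'3, hc'n⟩ : ∃ c', c' < 6 ∧ c' % 2 = 1 ∧ c' % 3 ≠ 0 ∧
      c' % 3 ≠ n % 3 := by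
    by_cases h : n % 3 = 1
    · exact ⟨5, by norm_num, by norm_num, by norm_num, by omega⟩
    · exact ⟨1, by norm_num, by norm_num, by norm_num, by omega⟩
  set x := n / (6 * (m + 1)) + 1 with hx
  have hq6 : ∀ p, p.Prime → 5 ≤ p → p < 2 ^ l → ¬ p ∣ 6 := by
    intro p hp h5 _ hd
    have h6 := Nat.le_of_dvd (by norm_num) hd
    interval_cases p
    · omega
    · exact absurd hp (by norm_num)
  obtain ⟨σ, hσ1, hσ2, hσ⟩ := nt_linear l hl 6 c' x (fun p => 0)
    (fun p => (n : ZMod p) * (m : ZMod p)⁻¹) hq6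
  rw [← hy] at hσ2
  set t := 6 * σ + c' with ht
  have ht2 : t % 2 = 1 := by omega
  have hbig : 6 * (m + 1) * (m * (1 + y)) ≤ n := by
    have h1 : m * (m + 1) ≤ (3 * 2 ^ l * (y + 2)) * (3 * 2 ^ l * (y + 2)) :=
      Nat.mul_le_mul (by omega) hmlt
    have h2 : y + 2 ≤ 2 * (2 * y) := by omega
    have h3 : 1 + y ≤ 2 * y := by omega
    calc 6 * (m + 1) * (m * (1 + y)) = 6 * (m * (m + 1)) * (1 + y) := by ring
      _ ≤ 6 * ((3 * 2 ^ l * (2 * (2 * y))) * (3 * 2 ^ l * (2 * (2 * y)))) * (2 * y) := by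
        refine Nat.mul_le_mul (Nat.mul_le_mul_left 6 (h1.trans ?_)) h3
        exact Nat.mul_le_mul (Nat.mul_le_mul_left _ h2) (Nat.mul_le_mul_left _ h2)
      _ = 1728 * ((2 ^ l) ^ 2 * y ^ 3) := by ring
      _ ≤ 2 ^ 11 * ((2 ^ l) ^ 2 * y ^ 3) := by
        gcongr
        norm_num
      _ = 2 ^ (11 + 2 * l + 78 * l ^ 2) := by
        rw [hy]
        ring
      _ ≤ 2 ^ (100 * l ^ 2) := by
        apply Nat.pow_le_pow_right (by norm_num)
        nlinarith
      _ ≤ n := hn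
  have hxq : m * (1 + y) ≤ n / (6 * (m + 1)) := by
    rw [Nat.le_div_iff_mul_le (by omega)]
    calc m * (1 + y) * (6 * (m + 1)) = 6 * (m + 1) * (m * (1 + y)) := by ring
      _ ≤ n := hbig
  have hlow : n ≤ (m + 1) * t := by
    have h1 : n < 6 * (m + 1) * x := by
      rw [hx]
      exact Nat.lt_mul_div_succ n (by omega)
    calc n ≤ 6 * (m + 1) * x := h1.le
      _ = (m + 1) * (6 * x) := by ring
      _ ≤ (m + 1) * t := Nat.mul_le_mul_left _ (by omega)
  have hup : m * t ≤ n := by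
    have h1 : 6 * (m + 1) * (n / (6 * (m + 1))) ≤ n := Nat.mul_div_le n _
    have h2 : t ≤ 6 * (x + y) := by omega
    have h3 : m * t ≤ m * (6 * (x + y)) := Nat.mul_le_mul_left _ h2
    set Q := n / (6 * (m + 1)) with hQ
    have h4 : m * (6 * (x + y)) = 6 * (m * Q) + 6 * (m * (1 + y)) := by
      rw [hx]
      ring
    have h5 : 6 * (m + 1) * Q = 6 * (m * Q) + 6 * Q := by ring
    omega
  refine ⟨m, t, n - m * t, by omega, ?_, hgm, hgm1, ?_, ?_⟩
  · have : (m + 1) * t = m * t + t := by ring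
    omega
  · refine nt_good_of (by omega) (fun h => by omega) (by omega) fun p hp h5 hlt hd => ?_
    exact (hσ p hp h5 hlt).1 ((ZMod.natCast_eq_zero_iff _ _).2 hd)
  · -- `u`
    set u := n - m * t with hu
    have hnu : n = m * t + u := by omega
    have hu2 : u % 2 = 1 := by
      have h1 : n % 2 = ((m % 2) * (t % 2) + u % 2) % 2 := by
        conv_lhs => rw [hnu]
        rw [Nat.add_mod, Nat.mul_mod]
        omega
      rw [ht2, mul_one] at h1
      rcases Nat.mod_two_eq_zero_or_one n with h' | h'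
      · have := hl2.trans (hmev h')
        omega
      · have := hl2.trans (hmodd h')
        omega
    have hu3 : ¬ 3 ∣ u := by
      intro hd
      have h1 : n % 3 = ((m % 3) * (t % 3) + u % 3) % 3 := by
        conv_lhs => rw [hnu]
        rw [Nat.add_mod, Nat.mul_mod]
        omega
      rw [hm3, one_mul] at h1
      omega
    refine nt_good_of (by omega) (fun h => by omega) hu3 fun p hp h5 hlt hd => ?_
    have := Fact.mk hp
    apply (hσ p hp h5 hlt).2
    have hm0 : (m : ZMod p) ≠ 0 := fun h =>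
      hmp p hp h5 hlt ((ZMod.natCast_eq_zero_iff _ _).1 h)
    have h1 : (n : ZMod p) = (m : ZMod p) * (t : ZMod p) + (u : ZMod p) := by
      conv_lhs => rw [hnu]
      push_cast
      ring
    rw [(ZMod.natCast_eq_zero_iff u p).2 hd, add_zero] at h1
    show (t : ZMod p) = (n : ZMod p) * (m : ZMod p)⁻¹
    rw [h1]
    field_simp

end Pool.Agent.WB
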