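import Pool.Agent.WB.Basic

set_option autoImplicit false

/-! Module ONE: trivial designs. -/

namespace Pool.Agent.WB

theorem TD_one (s : ℕ) : TD s 1 := by
  refine CDec.clique (Finset.univ : Finset (Fin s × Fin 1)) (by simp) ?_
  intro x y
  rw [MP_adj]
  constructor
  · intro h
    exact ⟨Finset.mem_univ _, Finset.mem_univ _, fun hxy => h (by rw [hxy])⟩
  · rintro ⟨-, -, h⟩ h1
    exact h (Prod.ext h1 (Subsingleton.elim _ _))

theorem GD_v0 (k w : ℕ) : GD k w 0 :=
  CDec.bot fun x _ _ => x.1.elim0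

theorem GD_v1 (k w : ℕ) : GD k w 1 := by
  refine CDec.bot fun x y h => ?_
  rw [MP_adj] at h
  exact h (Subsingleton.elim _ _)

theorem GD_w0 (k v : ℕ) : GD k 0 v :=
  CDec.bot fun x _ _ => x.2.elim0

end Pool.Agent.WB
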