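import Pool.Agent.WB.Basic

set_option autoImplicit false

namespace Pool.Agent.WB

/-- Orthogonal array of strength two: rows `φ j : A → M`, every pair of entries in two different
columns occurs in exactly one row. -/
def OArr (A M : Type) : Prop :=
  ∃ (J : Type) (φ : J → A → M), ∀ i i', i ≠ i' → ∀ c c', ∃! j, φ j i = c ∧ φ j i' = c'

theorem TD.toOArr {s n : ℕ} (h : TD s n) {A M : Type} [Finite A] [Finite M]
    (hA : Nat.card A = s) (hM : Nat.card M = n) : OArr A M := by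
  classical
  have : Fintype A := Fintype.ofFinite A
  obtain ⟨𝓑, hB, hU⟩ := GD.prod h hA hM
  have hcl : ∀ B ∈ 𝓑, ∀ x ∈ B, ∀ y ∈ B, x.1 = y.1 → x = y := by
    intro B hBm x hx y hy hxy
    by_contra hne
    exact (MP_adj _ _ _).1 ((hB B hBm).2 (Finset.mem_coe.2 hx) (Finset.mem_coe.2 hy) hne) hxy
  have hex : ∀ B : {B // B ∈ 𝓑}, ∀ i : A, ∃ c : M, (i, c) ∈ B.1 := by
    rintro ⟨B, hBm⟩ i
    have hcard : (B.image Prod.fst).card = Fintype.card A := by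
      rw [Finset.card_image_of_injOn, (hB B hBm).1, ← hA, Nat.card_eq_fintype_card]
      intro x hx y hy hxy
      exact hcl B hBm x (Finset.mem_coe.1 hx) y (Finset.mem_coe.1 hy) hxy
    have huniv : B.image Prod.fst = Finset.univ := Finset.eq_univ_of_card _ hcard
    have hi : i ∈ B.image Prod.fst := by rw [huniv]; exact Finset.mem_univ i
    obtain ⟨x, hx, rfl⟩ := Finset.mem_image.1 hi
    exact ⟨x.2, hx⟩
  choose φ hφ using hex
  have hmem : ∀ (B : {B // B ∈ 𝓑}) (i : A) (c : M), (i, c) ∈ B.1 ↔ φ B i = c := by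
    intro B i c
    constructor
    · intro hc
      have := hcl B.1 B.2 _ (hφ B i) _ hc rfl
      exact congrArg Prod.snd this
    · rintro rfl
      exact hφ B i
  refine ⟨{B // B ∈ 𝓑}, φ, ?_⟩
  intro i i' hii c c'
  obtain ⟨B, ⟨hBm, hx, hy⟩, huniq⟩ := hU (i, c) (i', c') ((MP_adj _ _ _).2 hii)
  refine ⟨⟨B, hBm⟩, ⟨(hmem ⟨B, hBm⟩ i c).1 hx, (hmem ⟨B, hBm⟩ i' c').1 hy⟩, ?_⟩
  rintro ⟨B', hBm'⟩ ⟨h1, h2⟩
  apply Subtype.ext
  exact huniq B' ⟨hBm', (hmem ⟨B', hBm'⟩ i c).2 h1, (hmem ⟨B', hBm'⟩ i' c').2 h2⟩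

theorem TD.ofOArr {s n : ℕ} {A M : Type} [Finite A] [Finite M]
    (hA : Nat.card A = s) (hM : Nat.card M = n) (h : OArr A M) : TD s n := by
  classical
  have : Fintype A := Fintype.ofFinite A
  obtain ⟨J, φ, hφ⟩ := h
  refine GD.of_prod hA hM ?_
  have hmem : ∀ (j : J) (x : A × M),
      x ∈ (Finset.univ.image (fun i : A => (i, φ j i)) : Finset (A × M)) ↔ φ j x.1 = x.2 := by
    intro j x
    rw [Finset.mem_image]
    constructor
    · rintro ⟨i, -, rfl⟩; rfl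
    · intro hx
      exact ⟨x.1, Finset.mem_univ _, by rw [hx]⟩
  refine ⟨{B | ∃ j, B = Finset.univ.image (fun i : A => (i, φ j i))}, ?_, ?_⟩
  · rintro B ⟨j, rfl⟩
    refine ⟨?_, ?_⟩
    · rw [Finset.card_image_of_injective]
      · rw [Finset.card_univ, ← Nat.card_eq_fintype_card, hA]; rfl
      · intro a b hab
        exact congrArg Prod.fst hab
    · intro x hx y hy hxy
      rw [MP_adj]
      intro hfst
      apply hxy
      have h1 := (hmem j x).1 (Finset.mem_coe.1 hx)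
      have h2 := (hmem j y).1 (Finset.mem_coe.1 hy)
      apply Prod.ext hfst
      rw [← h1, ← h2, hfst]
  · intro x y hxy
    rw [MP_adj] at hxy
    obtain ⟨j, ⟨h1, h2⟩, huniq⟩ := hφ x.1 y.1 hxy x.2 y.2
    refine ⟨Finset.univ.image (fun i : A => (i, φ j i)), ⟨⟨j, rfl⟩, (hmem j x).2 h1,
      (hmem j y).2 h2⟩, ?_⟩
    rintro B ⟨⟨j', rfl⟩, hx, hy⟩
    rw [huniq j' ⟨(hmem j' x).1 hx, (hmem j' y).1 hy⟩]

/-- Relabel an orthogonal array so that one row is constantly `none`. -/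
theorem OArr.norm {A M : Type} (h : OArr A (Option M)) (hA : ∃ i i' : A, i ≠ i') :
    ∃ (J : Type) (φ : J → A → Option M) (j₀ : J), (∀ i, φ j₀ i = none) ∧
      ∀ i i', i ≠ i' → ∀ c c', ∃! j, φ j i = c ∧ φ j i' = c' := by
  classical
  obtain ⟨J, φ, hφ⟩ := h
  obtain ⟨i, i', hii⟩ := hA
  obtain ⟨j₀, -, -⟩ := hφ i i' hii none none
  refine ⟨J, fun j a => Equiv.swap (φ j₀ a) none (φ j a), j₀, ?_, ?_⟩
  · intro a
    simp
  · intro a a' haa c c'
    obtain ⟨j, ⟨h1, h2⟩, hu⟩ := hφ a a' haa (Equiv.swap (φ j₀ a) none c)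
      (Equiv.swap (φ j₀ a') none c')
    refine ⟨j, ⟨by simp [h1], by simp [h2]⟩, ?_⟩
    rintro j' ⟨h1', h2'⟩
    apply hu
    refine ⟨?_, ?_⟩
    · rw [← h1']; simp
    · rw [← h2']; simp

/-- Wilson's construction for orthogonal arrays. -/
theorem OArr.wilson {A : Type} {m t u : ℕ} (hm : OArr A (Fin m)) (hm1 : OArr A (Option (Fin m)))
    (ht : OArr (Option A) (Fin t)) (hu : OArr A (Fin u)) (hut : u ≤ t) :
    OArr A ((Fin t × Fin m) ⊕ Fin u) := by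
  classical
  by_cases hA : ∃ i i' : A, i ≠ i'
  swap
  · push Not at hA
    exact ⟨Empty, fun j => j.elim, fun i i' hii => absurd (hA i i') hii⟩
  obtain ⟨J₁, φ₁, h₁⟩ := hm
  obtain ⟨J₂, φ₂, j₀, h₀, h₂⟩ := hm1.norm hA
  obtain ⟨J₃, φ₃, h₃⟩ := ht
  obtain ⟨J₄, φ₄, h₄⟩ := hu
  let R₁ : Type := {j : J₃ // ¬ (φ₃ j none).1 < u} × J₁
  let R₂ : Type := {j : J₃ // (φ₃ j none).1 < u} × {k : J₂ // k ≠ j₀}
  let Φ : (R₁ ⊕ R₂) ⊕ J₄ → A → (Fin t × Fin m) ⊕ Fin u := fun r a =>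
    match r with
    | Sum.inl (Sum.inl r) => Sum.inl (φ₃ r.1.1 (some a), φ₁ r.2 a)
    | Sum.inl (Sum.inr r) =>
        match φ₂ r.2.1 a with
        | none => Sum.inr ⟨(φ₃ r.1.1 none).1, r.1.2⟩
        | some μ => Sum.inl (φ₃ r.1.1 (some a), μ)
    | Sum.inr r => Sum.inr (φ₄ r a)
  have e1 : ∀ (r : R₁) (a : A), Φ (Sum.inl (Sum.inl r)) a
      = Sum.inl (φ₃ r.1.1 (some a), φ₁ r.2 a) := fun r a => rfl
  have e2 : ∀ (r : R₂) (a : A), φ₂ r.2.1 a = none →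
      Φ (Sum.inl (Sum.inr r)) a = Sum.inr ⟨(φ₃ r.1.1 none).1, r.1.2⟩ := by
    intro r a h
    simp only [Φ, h]
  have e3 : ∀ (r : R₂) (a : A) (μ : Fin m), φ₂ r.2.1 a = some μ →
      Φ (Sum.inl (Sum.inr r)) a = Sum.inl (φ₃ r.1.1 (some a), μ) := by
    intro r a μ h
    simp only [Φ, h]
  have e4 : ∀ (r : J₄) (a : A), Φ (Sum.inr r) a = Sum.inr (φ₄ r a) := fun r a => rfl
  -- when is a row of the second kind equal to inl / inr
  have f2 : ∀ (r : R₂) (a : A) (x : Fin t × Fin m), Φ (Sum.inl (Sum.inr r)) a = Sum.inl x →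
      φ₃ r.1.1 (some a) = x.1 ∧ φ₂ r.2.1 a = some x.2 := by
    intro r a x h
    cases hc : φ₂ r.2.1 a with
    | none => rw [e2 r a hc] at h; exact absurd h (by simp)
    | some μ =>
      rw [e3 r a μ hc] at h
      have := Sum.inl_injective h
      rw [← this]
      exact ⟨rfl, rfl⟩
  have f3 : ∀ (r : R₂) (a : A) (θ : Fin u), Φ (Sum.inl (Sum.inr r)) a = Sum.inr θ →
      (φ₃ r.1.1 none).1 = θ.1 ∧ φ₂ r.2.1 a = none := by
    intro r a θ h
    cases hc : φ₂ r.2.1 a with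
    | none =>
      rw [e2 r a hc] at h
      have := Sum.inr_injective h
      rw [← this]
      exact ⟨rfl, rfl⟩
    | some μ => rw [e3 r a μ hc] at h; exact absurd h (by simp)
  -- mixed case
  have mixed : ∀ i i' : A, i ≠ i' → ∀ (x : Fin t × Fin m) (θ : Fin u),
      ∃! j, Φ j i = Sum.inl x ∧ Φ j i' = Sum.inr θ := by
    intro i i' hii x θ
    obtain ⟨j, ⟨hj1, hj2⟩, hju⟩ := h₃ (some i) none (by simp) x.1 ⟨θ.1, lt_of_lt_of_le θ.2 hut⟩
    obtain ⟨k, ⟨hk1, hk2⟩, hku⟩ := h₂ i i' hii (some x.2) none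
    have hjlt : (φ₃ j none).1 < u := by rw [hj2]; exact θ.2
    have hk0 : k ≠ j₀ := by
      rintro rfl
      rw [h₀] at hk1
      exact absurd hk1 (by simp)
    refine ⟨Sum.inl (Sum.inr (⟨j, hjlt⟩, ⟨k, hk0⟩)), ⟨?_, ?_⟩, ?_⟩
    · have := e3 (⟨j, hjlt⟩, ⟨k, hk0⟩) i x.2 hk1
      refine this.trans ?_
      rw [hj1]
    · have := e2 (⟨j, hjlt⟩, ⟨k, hk0⟩) i' hk2
      refine this.trans ?_
      congr 1
      apply Fin.ext
      show (φ₃ j none).1 = θ.1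
      rw [hj2]
    · rintro ((r | r) | r) ⟨hr1, hr2⟩
      · rw [e1] at hr2; exact absurd hr2 (by simp)
      · obtain ⟨a1, a2⟩ := f2 r i x hr1
        obtain ⟨b1, b2⟩ := f3 r i' θ hr2
        have c1 : r.1.1 = j := hju _ ⟨a1, Fin.ext b1⟩
        have c2 : r.2.1 = k := hku _ ⟨a2, b2⟩
        obtain ⟨⟨rj, hrj⟩, ⟨rk, hrk⟩⟩ := r
        simp only at c1 c2
        subst c1 c2
        rfl
      · rw [e4] at hr1; exact absurd hr1 (by simp)
  refine ⟨(R₁ ⊕ R₂) ⊕ J₄, Φ, ?_⟩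
  intro i i' hii c c'
  rcases c with x | θ <;> rcases c' with x' | θ'
  · -- both inl
    obtain ⟨j, ⟨hj1, hj2⟩, hju⟩ := h₃ (some i) (some i') (by simpa using hii) x.1 x'.1
    by_cases hlt : (φ₃ j none).1 < u
    · obtain ⟨k, ⟨hk1, hk2⟩, hku⟩ := h₂ i i' hii (some x.2) (some x'.2)
      have hk0 : k ≠ j₀ := by
        rintro rfl
        rw [h₀] at hk1
        exact absurd hk1 (by simp)
      refine ⟨Sum.inl (Sum.inr (⟨j, hlt⟩, ⟨k, hk0⟩)), ⟨?_, ?_⟩, ?_⟩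
      · have := e3 (⟨j, hlt⟩, ⟨k, hk0⟩) i x.2 hk1
        refine this.trans ?_
        rw [hj1]
      · have := e3 (⟨j, hlt⟩, ⟨k, hk0⟩) i' x'.2 hk2
        refine this.trans ?_
        rw [hj2]
      · rintro ((r | r) | r) ⟨hr1, hr2⟩
        · rw [e1] at hr1 hr2
          have a1 := Sum.inl_injective hr1
          have a2 := Sum.inl_injective hr2
          have c1 : r.1.1 = j := hju _ ⟨congrArg Prod.fst a1, congrArg Prod.fst a2⟩
          exact absurd (c1 ▸ hlt : (φ₃ r.1.1 none).1 < u) r.1.2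
        · obtain ⟨a1, a2⟩ := f2 r i x hr1
          obtain ⟨b1, b2⟩ := f2 r i' x' hr2
          have c1 : r.1.1 = j := hju _ ⟨a1, b1⟩
          have c2 : r.2.1 = k := hku _ ⟨a2, b2⟩
          obtain ⟨⟨rj, hrj⟩, ⟨rk, hrk⟩⟩ := r
          simp only at c1 c2
          subst c1 c2
          rfl
        · rw [e4] at hr1; exact absurd hr1 (by simp)
    · obtain ⟨k, ⟨hk1, hk2⟩, hku⟩ := h₁ i i' hii x.2 x'.2
      refine ⟨Sum.inl (Sum.inl (⟨j, hlt⟩, k)), ⟨?_, ?_⟩, ?_⟩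
      · have := e1 (⟨j, hlt⟩, k) i
        refine this.trans ?_
        simp only [hj1, hk1]
      · have := e1 (⟨j, hlt⟩, k) i'
        refine this.trans ?_
        simp only [hj2, hk2]
      · rintro ((r | r) | r) ⟨hr1, hr2⟩
        · rw [e1] at hr1 hr2
          have a1 := Sum.inl_injective hr1
          have a2 := Sum.inl_injective hr2
          have c1 : r.1.1 = j := hju _ ⟨congrArg Prod.fst a1, congrArg Prod.fst a2⟩
          have c2 : r.2 = k := hku _ ⟨congrArg Prod.snd a1, congrArg Prod.snd a2⟩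
          obtain ⟨⟨rj, hrj⟩, rk⟩ := r
          simp only at c1 c2
          subst c1 c2
          rfl
        · obtain ⟨a1, a2⟩ := f2 r i x hr1
          obtain ⟨b1, b2⟩ := f2 r i' x' hr2
          have c1 : r.1.1 = j := hju _ ⟨a1, b1⟩
          exact absurd r.1.2 (c1 ▸ hlt : ¬ (φ₃ r.1.1 none).1 < u)
        · rw [e4] at hr1; exact absurd hr1 (by simp)
  · exact mixed i i' hii x θ'
  · obtain ⟨j, ⟨h1, h2⟩, hu⟩ := mixed i' i hii.symm x' θ
    exact ⟨j, ⟨h2, h1⟩, fun j' hj' => hu j' ⟨hj'.2, hj'.1⟩⟩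
  · -- both inr
    obtain ⟨j, ⟨hj1, hj2⟩, hju⟩ := h₄ i i' hii θ θ'
    refine ⟨Sum.inr j, ⟨by rw [e4, hj1], by rw [e4, hj2]⟩, ?_⟩
    rintro ((r | r) | r) ⟨hr1, hr2⟩
    · rw [e1] at hr1; exact absurd hr1 (by simp)
    · obtain ⟨a1, a2⟩ := f3 r i θ hr1
      obtain ⟨b1, b2⟩ := f3 r i' θ' hr2
      obtain ⟨k, -, hku⟩ := h₂ i i' hii none none
      have c1 := hku _ ⟨a2, b2⟩
      have c2 := hku _ ⟨h₀ i, h₀ i'⟩
      exact absurd (c1.trans c2.symm) r.2.2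
    · rw [e4] at hr1 hr2
      rw [hju r ⟨Sum.inr_injective hr1, Sum.inr_injective hr2⟩]

theorem wilson {s m t u : ℕ} (hm : TD s m) (hm1 : TD s (m + 1)) (ht : TD (s + 1) t)
    (hu : TD s u) (hut : u ≤ t) : TD s (m * t + u) := by
  refine TD.ofOArr (A := Fin s) (M := (Fin t × Fin m) ⊕ Fin u) (by simp) ?_
    (OArr.wilson (hm.toOArr (by simp) (by simp)) (hm1.toOArr (by simp) ?_)
      (ht.toOArr ?_ (by simp)) (hu.toOArr (by simp) (by simp)) hut)
  · simp [Nat.card_eq_fintype_card, mul_comm]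
  · simp [Nat.card_eq_fintype_card]
  · simp [Nat.card_eq_fintype_card]

end Pool.Agent.WB
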