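import Pool.Agent.WB.NT
import Pool.Agent.WB.WIL

set_option autoImplicit false

namespace Pool.Agent.WB

theorem TD_big (l : ℕ) (hl : 1 ≤ l) (n : ℕ) (hn : 2 ^ (100 * l ^ 2) ≤ n) : TD (2 ^ l) n := by
  obtain ⟨m, t, u, rfl, hut, hm, hm1, ht, hu⟩ := good_split l hl n hn
  exact wilson (TD_mono (TD_good hm) (by omega)) (TD_mono (TD_good hm1) (by omega))
    (TD_good ht) (TD_mono (TD_good hu) (by omega)) hut

end Pool.Agent.WB
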