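import Pool.Agent.WB.Basic

set_option autoImplicit false

/-! # WB module YL -/

namespace Pool.Agent.WB

/-- Runs of length `L + 1` of elements of `Y` start shortly below every large `x`. -/
def YRun (Y : Set ℕ) (A L D : ℕ) : Prop :=
  ∀ x, D ≤ x → ∃ b, b ≤ x ∧ x < b + A ∧ ∀ i, i ≤ L → b + i ∈ Y

theorem YRun.mono {Y : Set ℕ} {A L D D' : ℕ} (h : YRun Y A L D) (hD : D ≤ D') :
    YRun Y A L D' := fun x hx => h x (le_trans hD hx)

theorem YRun_zero (k A : ℕ) (Y : Set ℕ) (hk : 2 ≤ k)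
    (h1 : ∀ x, A ≤ x → ∃ y ∈ Y, k * y ≤ x ∧ x < (k + 1) * y)
    (h2 : ∀ y ∈ Y, ∀ z, (z ∈ Y ∨ z = 0) → z < y → k * y + z ∈ Y ∧ k * y + z + 1 ∈ Y) :
    YRun Y A 0 A := by
  have key : ∀ n x, x < n → ∃ b, (b ∈ Y ∨ (b = 0 ∧ x < A)) ∧ b ≤ x ∧ x < b + A := by
    intro n
    induction n with
    | zero => intro x hx; omega
    | succ n ih =>
      intro x hx
      by_cases hxA : x < A
      · exact ⟨0, Or.inr ⟨rfl, hxA⟩, Nat.zero_le _, by omega⟩
      · obtain ⟨y, hy, hy1, hy2⟩ := h1 x (by omega)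
        have e1 : (k + 1) * y = k * y + y := by ring
        have hy3 : x - k * y < y := by omega
        have hy0 : 0 < y := by omega
        have hky : 0 < k * y := Nat.mul_pos (by omega) hy0
        obtain ⟨b, hb, hb1, hb2⟩ := ih (x - k * y) (by omega)
        have hb3 : b ∈ Y ∨ b = 0 := by
          rcases hb with h | h
          · exact Or.inl h
          · exact Or.inr h.1
        have h3 := (h2 y hy b hb3 (by omega)).1
        exact ⟨k * y + b, Or.inl h3, by omega, by omega⟩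
  intro x hx
  obtain ⟨b, hb, hb1, hb2⟩ := key (x + 1) x (by omega)
  refine ⟨b, hb1, hb2, ?_⟩
  intro i hi
  have hi0 : i = 0 := by omega
  subst hi0
  rcases hb with h | h
  · exact h
  · omega

/-- The common part of the two kinds of steps. -/
theorem YRun_step_aux (k A L D : ℕ) (Y : Set ℕ) (hk : 2 ≤ k)
    (h2 : ∀ y ∈ Y, ∀ z, (z ∈ Y ∨ z = 0) → z < y → k * y + z ∈ Y ∧ k * y + z + 1 ∈ Y)
    (hLD : L ≤ D) (hAD : A ≤ D) (h : YRun Y A L D) (x : ℕ) (hx : (k + 3) ^ 2 * D ≤ x) :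
    ∃ y b, k * y + b ≤ x ∧ x < k * y + b + A ∧
      ∀ j, j ≤ L → ∀ i, i ≤ L → k * y + b + (k * j + i) ∈ Y ∧ k * y + b + (k * j + i + 1) ∈ Y := by
  have hkpos : 0 < k := by omega
  have hD1 : k * A ≤ k * D := Nat.mul_le_mul_left k hAD
  have hD2 : k * L ≤ k * D := Nat.mul_le_mul_left k hLD
  have hD3 : k * (k * A) ≤ k * (k * D) := Nat.mul_le_mul_left k hD1
  have e0 : (k + 3) ^ 2 * D = k * (k * D) + 6 * (k * D) + 9 * D := by ring
  -- the first choice
  have hx0 : D ≤ (x - D) / k := by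
    rw [Nat.le_div_iff_mul_le hkpos]
    have : D * k = k * D := by ring
    omega
  obtain ⟨y, hy1, hy2, hy3⟩ := h ((x - D) / k) hx0
  have hy4 : k * y ≤ x - D := by
    calc k * y ≤ k * ((x - D) / k) := Nat.mul_le_mul_left k hy1
      _ ≤ x - D := Nat.mul_div_le _ _
  have hy5 : x - D < k * (y + A) := by
    have := (Nat.div_lt_iff_lt_mul hkpos).1 hy2
    rw [Nat.mul_comm] at this
    exact this
  have e1 : k * (y + A) = k * y + k * A := by ring
  -- the second choice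
  obtain ⟨b, hb1, hb2, hb3⟩ := h (x - k * y) (by omega)
  have hby : b + L < y := by
    -- compare after multiplication by `k`
    by_contra hcon
    push Not at hcon
    have h5 : k * y ≤ k * (b + L) := Nat.mul_le_mul_left k hcon
    have h6 : k * (b + L) ≤ k * (D + k * A + L) := Nat.mul_le_mul_left k (by omega)
    have e2 : k * (D + k * A + L) = k * D + k * (k * A) + k * L := by ring
    omega
  refine ⟨y, b, by omega, by omega, ?_⟩
  intro j hj i hi
  have h7 := h2 (y + j) (hy3 j hj) (b + i) (Or.inl (hb3 i hi)) (by omega)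
  have e3 : k * (y + j) + (b + i) = k * y + b + (k * j + i) := by ring
  have e4 : k * (y + j) + (b + i) + 1 = k * y + b + (k * j + i + 1) := by ring
  rw [e3] at h7
  refine ⟨h7.1, ?_⟩
  have h8 := h7.2
  have e5 : k * y + b + (k * j + i) + 1 = k * y + b + (k * j + i + 1) := by ring
  rw [e5] at h8
  exact h8

theorem YRun_step1 (k A L D : ℕ) (Y : Set ℕ) (hk : 2 ≤ k)
    (h2 : ∀ y ∈ Y, ∀ z, (z ∈ Y ∨ z = 0) → z < y → k * y + z ∈ Y ∧ k * y + z + 1 ∈ Y)
    (hLD : L ≤ D) (hAD : A ≤ D) (h : YRun Y A L D) : YRun Y A (L + 1) ((k + 3) ^ 2 * D) := by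
  intro x hx
  obtain ⟨y, b, hb1, hb2, hb3⟩ := YRun_step_aux k A L D Y hk h2 hLD hAD h x hx
  refine ⟨k * y + b, hb1, hb2, ?_⟩
  intro i hi
  by_cases hiL : i ≤ L
  · have := (hb3 0 (Nat.zero_le _) i hiL).1
    simpa using this
  · have hi' : i = L + 1 := by omega
    subst hi'
    have := (hb3 0 (Nat.zero_le _) L le_rfl).2
    simpa using this

theorem YRun_step2 (k A L D : ℕ) (Y : Set ℕ) (hk : 2 ≤ k)
    (h2 : ∀ y ∈ Y, ∀ z, (z ∈ Y ∨ z = 0) → z < y → k * y + z ∈ Y ∧ k * y + z + 1 ∈ Y)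
    (hLD : L ≤ D) (hAD : A ≤ D) (hkL : k ≤ L) (h : YRun Y A L D) :
    YRun Y A (k * L + L) ((k + 3) ^ 2 * D) := by
  intro x hx
  obtain ⟨y, b, hb1, hb2, hb3⟩ := YRun_step_aux k A L D Y hk h2 hLD hAD h x hx
  refine ⟨k * y + b, hb1, hb2, ?_⟩
  intro i hi
  have hkpos : 0 < k := by omega
  by_cases hiL : i < k * L
  · have hq : i / k ≤ L := by
      have := (Nat.div_lt_iff_lt_mul hkpos).2 (by rw [Nat.mul_comm] at hiL; exact hiL)
      omega
    have hr : i % k ≤ L := by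
      have := Nat.mod_lt i hkpos
      omega
    have h5 := (hb3 (i / k) hq (i % k) hr).1
    have e : k * (i / k) + i % k = i := Nat.div_add_mod i k
    rw [e] at h5
    exact h5
  · have h5 := (hb3 L le_rfl (i - k * L) (by omega)).1
    have e : k * L + (i - k * L) = i := by omega
    rw [e] at h5
    exact h5

theorem Y_lemma (k M A : ℕ) (Y : Set ℕ) (hk : 2 ≤ k) (hA : 1 ≤ A) (hM : A ≤ k ^ M)
    (h1 : ∀ x, A ≤ x → ∃ y ∈ Y, k * y ≤ x ∧ x < (k + 1) * y)
    (h2 : ∀ y ∈ Y, ∀ z, (z ∈ Y ∨ z = 0) → z < y → k * y + z ∈ Y ∧ k * y + z + 1 ∈ Y) :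
    ∀ x, (k + 3) ^ (2 * (k + M)) * A ≤ x → x ∈ Y := by
  -- phase 1
  have p1 : ∀ i, i ≤ (k + 3) ^ (2 * i) * A ∧ A ≤ (k + 3) ^ (2 * i) * A ∧
      YRun Y A i ((k + 3) ^ (2 * i) * A) := by
    intro i
    induction i with
    | zero =>
      refine ⟨Nat.zero_le _, by simp, ?_⟩
      simpa using YRun_zero k A Y hk h1 h2
    | succ i ih =>
      obtain ⟨ih1, ih2, ih3⟩ := ih
      have e : (k + 3) ^ (2 * (i + 1)) * A = (k + 3) ^ 2 * ((k + 3) ^ (2 * i) * A) := by
        rw [Nat.mul_add, pow_add]; ring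
      rw [e]
      have h9 : 9 * ((k + 3) ^ (2 * i) * A) ≤ (k + 3) ^ 2 * ((k + 3) ^ (2 * i) * A) := by
        apply Nat.mul_le_mul_right
        nlinarith
      refine ⟨by omega, by omega, ?_⟩
      exact YRun_step1 k A i _ Y hk h2 ih1 ih2 ih3
  -- phase 2
  have p2 : ∀ j, ∃ L, k ^ (j + 1) ≤ L ∧ k ≤ L ∧ L ≤ (k + 3) ^ (2 * (k + j)) * A ∧
      A ≤ (k + 3) ^ (2 * (k + j)) * A ∧ YRun Y A L ((k + 3) ^ (2 * (k + j)) * A) := by
    intro j
    induction j with
    | zero =>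
      obtain ⟨h3, h4, h5⟩ := p1 k
      exact ⟨k, by simp, le_rfl, by simpa using h3, by simpa using h4, by simpa using h5⟩
    | succ j ih =>
      obtain ⟨L, g1, g2, g3, g4, g5⟩ := ih
      have e : (k + 3) ^ (2 * (k + (j + 1))) * A = (k + 3) ^ 2 * ((k + 3) ^ (2 * (k + j)) * A) := by
        have : 2 * (k + (j + 1)) = 2 + 2 * (k + j) := by ring
        rw [this, pow_add]; ring
      rw [e]
      refine ⟨k * L + L, ?_, by omega, ?_, ?_, YRun_step2 k A L _ Y hk h2 g3 g4 g2 g5⟩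
      · calc k ^ (j + 1 + 1) = k * k ^ (j + 1) := by ring
          _ ≤ k * L := Nat.mul_le_mul_left k g1
          _ ≤ k * L + L := Nat.le_add_right _ _
      · have h6 : k * L + L ≤ k * ((k + 3) ^ (2 * (k + j)) * A) + (k + 3) ^ (2 * (k + j)) * A :=
          Nat.add_le_add (Nat.mul_le_mul_left k g3) g3
        have h7 : k * ((k + 3) ^ (2 * (k + j)) * A) + (k + 3) ^ (2 * (k + j)) * A =
            (k + 1) * ((k + 3) ^ (2 * (k + j)) * A) := by ring
        have h8 : (k + 1) * ((k + 3) ^ (2 * (k + j)) * A) ≤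
            (k + 3) ^ 2 * ((k + 3) ^ (2 * (k + j)) * A) := by
          apply Nat.mul_le_mul_right
          nlinarith
        omega
      · have h8 : 1 * ((k + 3) ^ (2 * (k + j)) * A) ≤
            (k + 3) ^ 2 * ((k + 3) ^ (2 * (k + j)) * A) := by
          apply Nat.mul_le_mul_right
          nlinarith
        omega
  intro x hx
  obtain ⟨L, g1, g2, g3, g4, g5⟩ := p2 M
  obtain ⟨b, hb1, hb2, hb3⟩ := g5 x hx
  have hAL : A ≤ L := by
    calc A ≤ k ^ M := hM
      _ ≤ k ^ (M + 1) := Nat.pow_le_pow_right (by omega) (Nat.le_succ _)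
      _ ≤ L := g1
  have h10 := hb3 (x - b) (by omega)
  have e : b + (x - b) = x := by omega
  rwa [e] at h10

end Pool.Agent.WB
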